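import Pool.Agent.Helper27.S4.Ten
import Pool.Agent.Helper27.PGN.Big

/-!
Project LT (MP_b8862a_ag), sharpness: exterior powers of structures of K3 type. The base point.
-/

set_option linter.unusedSectionVars false

open Matrix

namespace MH.Her27.S4

variable {κ : Type*} [Fintype κ] [DecidableEq κ] {m : ℕ}

section ring
variable {K : Type*} [CommRing K]

/-- a monomial matrix -/
def mo (π : Equiv.Perm κ) (d : κ → K) : Matrix κ κ K := Matrix.of fun a b => if a = π b then d b else 0

theorem mo_apply (π : Equiv.Perm κ) (d : κ → K) (a b : κ) : mo π d a b = if a = π b then d b else 0 := rfl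

theorem mo_mul (π π' : Equiv.Perm κ) (d d' : κ → K) : mo π d * mo π' d' = mo (π * π') fun b => d (π' b) * d' b := by
  ext a b
  rw [Matrix.mul_apply, mo_apply]
  simp only [mo_apply, mul_ite, mul_zero]
  rw [Finset.sum_ite_eq', if_pos (Finset.mem_univ _)]
  simp only [Equiv.Perm.coe_mul, Function.comp_apply]
  split_ifs <;> simp

theorem mo_one (d : κ → K) : mo 1 d = Matrix.diagonal d := by
  ext a b
  rw [mo_apply, Matrix.diagonal_apply]
  simp only [Equiv.Perm.coe_one, id_eq]
  by_cases h : a = b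
  · subst h; simp
  · simp [h]

theorem TP_mo (π : Equiv.Perm κ) (d : κ → K) (f g : Fin m → κ) :
    TP m (mo π d) f g = if f = π ∘ g then ∏ k, d (g k) else 0 := by
  rw [TP_apply]
  simp only [mo_apply]
  rw [Finset.prod_ite_zero]
  simp only [Finset.mem_univ, forall_const, funext_iff, Function.comp_apply]

theorem TP_mo_mul (π : Equiv.Perm κ) (d : κ → K) (X : Matrix (Fin m → κ) (Fin m → κ) K) (f g : Fin m → κ) :
    (TP m (mo π d) * X) f g = (∏ k, d (π.symm (f k))) * X (π.symm ∘ f) g := by
  rw [Matrix.mul_apply]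
  simp only [TP_mo, ite_mul, zero_mul]
  have h1 : ∀ h : Fin m → κ, (f = π ∘ h) ↔ (h = π.symm ∘ f) := by
    intro h
    constructor
    · rintro rfl
      funext x
      simp
    · rintro rfl
      funext x
      simp
  simp only [h1]
  rw [Finset.sum_ite_eq', if_pos (Finset.mem_univ _)]
  rfl

theorem mul_TP_mo (π : Equiv.Perm κ) (d : κ → K) (X : Matrix (Fin m → κ) (Fin m → κ) K) (f g : Fin m → κ) :
    (X * TP m (mo π d)) f g = X f (π ∘ g) * ∏ k, d (g k) := by
  rw [Matrix.mul_apply]
  simp only [TP_mo, mul_ite, mul_zero]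
  rw [Finset.sum_ite_eq', if_pos (Finset.mem_univ _)]

/-- the polarisation -/
def QW (K : Type*) [CommRing K] (o0 o1 : κ) : Matrix κ κ K := mo 1 fun b => (if b = o0 then -1 else 1) * (if b = o1 then -1 else 1)

/-- the rotation -/
def RW (K : Type*) [CommRing K] (o0 o1 : κ) : Matrix κ κ K := mo (Equiv.swap o0 o1) fun b => if b = o1 then -1 else 1

/-- its inverse -/
def RT (K : Type*) [CommRing K] (o0 o1 : κ) : Matrix κ κ K := mo (Equiv.swap o0 o1) fun b => if b = o0 then -1 else 1

theorem sw_eq_left {o0 o1 : κ} (b : κ) : (Equiv.swap o0 o1 b = o0) ↔ (b = o1) := by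
  rw [Equiv.swap_apply_eq_iff, Equiv.swap_apply_left]

theorem sw_eq_right {o0 o1 : κ} (b : κ) : (Equiv.swap o0 o1 b = o1) ↔ (b = o0) := by
  rw [Equiv.swap_apply_eq_iff, Equiv.swap_apply_right]

theorem RW_RW (o0 o1 : κ) : RW K o0 o1 * RW K o0 o1 = QW K o0 o1 := by
  unfold RW QW
  rw [mo_mul, Equiv.swap_mul_self]
  simp only [sw_eq_right]

theorem RT_RT (o0 o1 : κ) : RT K o0 o1 * RT K o0 o1 = QW K o0 o1 := by
  unfold RT QW
  rw [mo_mul, Equiv.swap_mul_self]
  simp only [sw_eq_left]
  congr 1
  funext b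
  ring

theorem RW_RT (o0 o1 : κ) : RW K o0 o1 * RT K o0 o1 = 1 := by
  unfold RW RT
  rw [mo_mul, Equiv.swap_mul_self]
  simp only [sw_eq_right]
  have h1 : (fun b : κ => (if b = o0 then (-1 : K) else 1) * (if b = o0 then -1 else 1)) = fun _ => 1 := by
    funext b
    split_ifs <;> ring
  rw [h1, mo_one, Matrix.diagonal_one]

theorem RT_RW (o0 o1 : κ) : RT K o0 o1 * RW K o0 o1 = 1 := by
  unfold RW RT
  rw [mo_mul, Equiv.swap_mul_self]
  simp only [sw_eq_left]
  have h1 : (fun b : κ => (if b = o1 then (-1 : K) else 1) * (if b = o1 then -1 else 1)) = fun _ => 1 := by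
    funext b
    split_ifs <;> ring
  rw [h1, mo_one, Matrix.diagonal_one]

theorem QW_QW (o0 o1 : κ) : QW K o0 o1 * QW K o0 o1 = 1 := by
  unfold QW
  rw [mo_mul, one_mul]
  have h1 : (fun b : κ => ((if ((1 : Equiv.Perm κ) b) = o0 then (-1 : K) else 1) *
      (if ((1 : Equiv.Perm κ) b) = o1 then -1 else 1)) * ((if b = o0 then (-1 : K) else 1) * (if b = o1 then -1 else 1))) =
      fun _ => 1 := by
    funext b
    simp only [Equiv.Perm.coe_one, id_eq]
    split_ifs <;> ring
  rw [h1, mo_one, Matrix.diagonal_one]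

theorem RW_QW (o0 o1 : κ) : RW K o0 o1 * QW K o0 o1 = RT K o0 o1 := by
  have h1 : RW K o0 o1 * QW K o0 o1 = RW K o0 o1 * (RT K o0 o1 * RT K o0 o1) := by rw [RT_RT]
  rw [h1, ← mul_assoc, RW_RT, one_mul]

theorem QW_RW (o0 o1 : κ) : QW K o0 o1 * RW K o0 o1 = RT K o0 o1 := by
  rw [← RT_RT, mul_assoc, RT_RW, mul_one]

theorem RT_QW (o0 o1 : κ) : RT K o0 o1 * QW K o0 o1 = RW K o0 o1 := by
  rw [← RW_RW, ← mul_assoc, RT_RW, one_mul]

theorem QW_RT (o0 o1 : κ) : QW K o0 o1 * RT K o0 o1 = RW K o0 o1 := by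
  rw [← RW_RW, mul_assoc, RW_RT, mul_one]

theorem RW_transpose (o0 o1 : κ) : (RW K o0 o1)ᵀ = RT K o0 o1 := by
  ext a b
  rw [Matrix.transpose_apply, RW, RT, mo_apply, mo_apply]
  have h1 : (b = Equiv.swap o0 o1 a) ↔ (a = Equiv.swap o0 o1 b) := by
    constructor
    · rintro rfl; simp
    · rintro rfl; simp
  by_cases h : a = Equiv.swap o0 o1 b
  · rw [if_pos (h1.2 h), if_pos h, h]
    simp only [sw_eq_right]
  · rw [if_neg (fun h' => h (h1.1 h')), if_neg h]

theorem RT_transpose (o0 o1 : κ) : (RT K o0 o1)ᵀ = RW K o0 o1 := by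
  rw [← RW_transpose, Matrix.transpose_transpose]

theorem QW_transpose (o0 o1 : κ) : (QW K o0 o1)ᵀ = QW K o0 o1 := by
  rw [← RW_RW, Matrix.transpose_mul, RW_transpose, RT_RT, RW_RW]

theorem mo_map {L : Type*} [CommRing L] (φ : K →+* L) (π : Equiv.Perm κ) (d : κ → K) :
    (mo π d).map φ = mo π fun b => φ (d b) := by
  ext a b
  rw [Matrix.map_apply, mo_apply, mo_apply, apply_ite φ, map_zero]

theorem RW_map {L : Type*} [CommRing L] (φ : K →+* L) (o0 o1 : κ) : (RW K o0 o1).map φ = RW L o0 o1 := by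
  unfold RW
  rw [mo_map]
  simp only [apply_ite φ, map_neg, map_one]

theorem RT_map {L : Type*} [CommRing L] (φ : K →+* L) (o0 o1 : κ) : (RT K o0 o1).map φ = RT L o0 o1 := by
  unfold RT
  rw [mo_map]
  simp only [apply_ite φ, map_neg, map_one]

theorem QW_map {L : Type*} [CommRing L] (φ : K →+* L) (o0 o1 : κ) : (QW K o0 o1).map φ = QW L o0 o1 := by
  unfold QW
  rw [mo_map]
  simp only [apply_ite φ, map_neg, map_one, map_mul]

/-- the infinitesimal rotation -/
def JW (K : Type*) [CommRing K] (o0 o1 : κ) : Matrix κ κ K := Matrix.single o1 o0 1 - Matrix.single o0 o1 1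

theorem JW_apply (o0 o1 a b : κ) : JW K o0 o1 a b =
    (if a = o1 then (if b = o0 then 1 else 0) else 0) - (if a = o0 then (if b = o1 then 1 else 0) else 0) := by
  unfold JW
  rw [Matrix.sub_apply, Matrix.single_apply, Matrix.single_apply]
  congr 1
  · by_cases h1 : a = o1
    · by_cases h2 : b = o0
      · simp [h1, h2]
      · simp [h1, h2, Ne.symm h2]
    · simp [h1, Ne.symm h1]
  · by_cases h1 : a = o0
    · by_cases h2 : b = o1
      · simp [h1, h2]
      · simp [h1, h2, Ne.symm h2]
    · simp [h1, Ne.symm h1]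

theorem rj_mul (j : Fin m) (B : Matrix κ κ K) (X : Matrix (Fin m → κ) (Fin m → κ) K) (f g : Fin m → κ) :
    (rj j B * X) f g = ∑ b, B (f j) b * X (Function.update f j b) g := by
  rw [Matrix.mul_apply]
  symm
  refine Fintype.sum_of_injective (fun b => Function.update f j b) (Function.update_injective f j) _ _ ?_ ?_
  · intro h hh
    rw [rj_apply, if_neg, zero_mul]
    intro h1
    apply hh
    refine ⟨h j, ?_⟩
    funext k
    by_cases hk : k = j
    · subst hk; simp
    · simp only [Function.update_of_ne hk, h1 k hk]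
  · intro b
    rw [rj_apply, if_pos]
    · simp
    · intro k hk
      simp [Function.update_of_ne hk]

theorem rj_JW_mul (j : Fin m) (o0 o1 : κ) (X : Matrix (Fin m → κ) (Fin m → κ) K) (f g : Fin m → κ) :
    (rj j (JW K o0 o1) * X) f g = (if f j = o1 then X (Function.update f j o0) g else 0) -
      (if f j = o0 then X (Function.update f j o1) g else 0) := by
  rw [rj_mul]
  simp only [JW_apply, sub_mul, ite_mul, one_mul, zero_mul, Finset.sum_sub_distrib]
  congr 1
  · split_ifs <;> simp
  · split_ifs <;> simp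

end ring

section field
variable {K : Type*} [Field K] [CharZero K]

theorem prod_sign {f : Fin m → κ} (hf : Function.Injective f) (o : κ) :
    ∏ k, (if f k = o then (-1 : K) else 1) = if ∃ k, f k = o then -1 else 1 := by
  by_cases h : ∃ k, f k = o
  · rw [if_pos h]
    obtain ⟨k, hk⟩ := h
    rw [Finset.prod_eq_single k, if_pos hk]
    · intro l _ hl
      rw [if_neg]
      intro hl'
      exact hl (hf (hl'.trans hk.symm))
    · intro h'
      exact absurd (Finset.mem_univ _) h'
  · rw [if_neg h]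
    push Not at h
    exact Finset.prod_eq_one fun k _ => if_neg (h k)

theorem RW_SS (o0 o1 : κ) (f g : Fin m → κ) : (TP m (RW K o0 o1) * SS κ m K) f g =
    (∏ k, (if f k = o0 then (-1 : K) else 1)) * SS κ m K (Equiv.swap o0 o1 ∘ f) g := by
  unfold RW
  rw [TP_mo_mul]
  simp only [Equiv.symm_swap, sw_eq_right]

theorem RT_SS (o0 o1 : κ) (f g : Fin m → κ) : (TP m (RT K o0 o1) * SS κ m K) f g =
    (∏ k, (if f k = o1 then (-1 : K) else 1)) * SS κ m K (Equiv.swap o0 o1 ∘ f) g := by
  unfold RT
  rw [TP_mo_mul]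
  simp only [Equiv.symm_swap, sw_eq_left]

theorem QW_SS (o0 o1 : κ) (f g : Fin m → κ) : (TP m (QW K o0 o1) * SS κ m K) f g =
    ((∏ k, (if f k = o0 then (-1 : K) else 1)) * (∏ k, (if f k = o1 then (-1 : K) else 1))) * SS κ m K f g := by
  unfold QW
  rw [TP_mo_mul, ← Finset.prod_mul_distrib]
  rfl

theorem SS_sw_zero {f : Fin m → κ} (hf : ¬ Function.Injective f) (o0 o1 : κ) (g : Fin m → κ) :
    SS κ m K (Equiv.swap o0 o1 ∘ f) g = 0 := by
  refine SS_zero (fun h => hf ?_) g
  exact Function.Injective.of_comp h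

/-- the values at a map with the values `o0` and `o1` -/
theorem SS_both {o0 o1 : κ} {f : Fin m → κ} (hf : Function.Injective f) {j k : Fin m} (hj : f j = o0)
    (hk : f k = o1) (h01 : o0 ≠ o1) (g : Fin m → κ) :
    SS κ m K (Equiv.swap o0 o1 ∘ f) g = -SS κ m K f g := by
  have hjk : j ≠ k := fun h => h01 (by rw [← hj, ← hk, h])
  have h1 : Equiv.swap o0 o1 ∘ f = f ∘ Equiv.swap j k := by
    funext x
    simp only [Function.comp_apply]
    by_cases hx : x = j
    · subst hx; rw [hj, Equiv.swap_apply_left, Equiv.swap_apply_left, hk]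
    · by_cases hx' : x = k
      · subst hx'; rw [hk, Equiv.swap_apply_right, Equiv.swap_apply_right, hj]
      · rw [Equiv.swap_apply_of_ne_of_ne hx hx', Equiv.swap_apply_of_ne_of_ne]
        · intro h; exact hx (hf (h.trans hj.symm))
        · intro h; exact hx' (hf (h.trans hk.symm))
  rw [h1, SS_row, Equiv.Perm.sign_swap hjk]
  push_cast
  ring

theorem sw_none {o0 o1 : κ} {f : Fin m → κ} (h0 : ¬ ∃ k, f k = o0) (h1 : ¬ ∃ k, f k = o1) :
    Equiv.swap o0 o1 ∘ f = f := by
  push Not at h0 h1
  funext x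
  rw [Function.comp_apply, Equiv.swap_apply_of_ne_of_ne (h0 x) (h1 x)]

theorem sw_left {o0 o1 : κ} {f : Fin m → κ} (hf : Function.Injective f) {j : Fin m} (hj : f j = o0)
    (h1 : ¬ ∃ k, f k = o1) : Equiv.swap o0 o1 ∘ f = Function.update f j o1 := by
  push Not at h1
  funext x
  rw [Function.comp_apply]
  by_cases hx : x = j
  · subst hx; rw [hj, Equiv.swap_apply_left, Function.update_self]
  · rw [Function.update_of_ne hx, Equiv.swap_apply_of_ne_of_ne (fun h => hx (hf (h.trans hj.symm))) (h1 x)]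

theorem sw_right {o0 o1 : κ} {f : Fin m → κ} (hf : Function.Injective f) {j : Fin m} (hj : f j = o1)
    (h0 : ¬ ∃ k, f k = o0) : Equiv.swap o0 o1 ∘ f = Function.update f j o0 := by
  rw [Equiv.swap_comm]
  exact sw_left hf hj h0

/-- the level `2` does not occur -/
theorem key1 {o0 o1 : κ} (h01 : o0 ≠ o1) :
    TP m (RW K o0 o1) * SS κ m K + TP m (RT K o0 o1) * SS κ m K = SS κ m K + TP m (QW K o0 o1) * SS κ m K := by
  ext f g
  rw [Matrix.add_apply, Matrix.add_apply, RW_SS, RT_SS, QW_SS]
  by_cases hf : Function.Injective f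
  · rw [prod_sign hf, prod_sign hf]
    by_cases h0 : ∃ k, f k = o0 <;> by_cases h1 : ∃ k, f k = o1
    · rw [if_pos h0, if_pos h1]
      obtain ⟨j, hj⟩ := h0
      obtain ⟨k, hk⟩ := h1
      rw [SS_both hf hj hk h01]
      ring
    · rw [if_pos h0, if_neg h1]
      ring
    · rw [if_neg h0, if_pos h1]
      ring
    · rw [if_neg h0, if_neg h1, sw_none h0 h1]
      ring
  · rw [SS_sw_zero hf, SS_zero hf]
    ring

/-- the difference of the extreme levels is the derivation -/
theorem key2 {o0 o1 : κ} (h01 : o0 ≠ o1) :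
    TP m (RW K o0 o1) * SS κ m K - TP m (RT K o0 o1) * SS κ m K = (2 : K) • (rh m (JW K o0 o1) * SS κ m K) := by
  ext f g
  rw [Matrix.sub_apply, Matrix.smul_apply, RW_SS, RT_SS, smul_eq_mul]
  by_cases hf : Function.Injective f
  · have e1 : (rh m (JW K o0 o1) * SS κ m K) f g = ∑ j, ((if f j = o1 then SS κ m K (Function.update f j o0) g else 0) -
        (if f j = o0 then SS κ m K (Function.update f j o1) g else 0)) := by
      unfold rh
      rw [Finset.sum_mul, Matrix.sum_apply]
      exact Finset.sum_congr rfl fun j _ => rj_JW_mul j o0 o1 _ f g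
    rw [prod_sign hf, prod_sign hf, e1, Finset.sum_sub_distrib]
    by_cases h0 : ∃ k, f k = o0 <;> by_cases h1 : ∃ k, f k = o1
    · rw [if_pos h0, if_pos h1]
      obtain ⟨j, hj⟩ := h0
      obtain ⟨k, hk⟩ := h1
      have hjk : j ≠ k := fun h => h01 (by rw [← hj, ← hk, h])
      have n1 : ¬ Function.Injective (Function.update f k o0) := by
        intro hi
        apply hjk
        apply hi
        rw [Function.update_of_ne hjk, Function.update_self, hj]
      have n2 : ¬ Function.Injective (Function.update f j o1) := by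
        intro hi
        apply hjk
        apply hi
        rw [Function.update_of_ne hjk.symm, Function.update_self, hk]
      have s1 : ∑ l, (if f l = o1 then SS κ m K (Function.update f l o0) g else 0) = 0 := by
        refine Finset.sum_eq_zero fun l _ => ?_
        split_ifs with hl
        · rw [hf (hl.trans hk.symm)]
          exact SS_zero n1 g
        · rfl
      have s2 : ∑ l, (if f l = o0 then SS κ m K (Function.update f l o1) g else 0) = 0 := by
        refine Finset.sum_eq_zero fun l _ => ?_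
        split_ifs with hl
        · rw [hf (hl.trans hj.symm)]
          exact SS_zero n2 g
        · rfl
      rw [s1, s2]
      ring
    · rw [if_pos h0, if_neg h1]
      obtain ⟨j, hj⟩ := h0
      have h1' := h1
      push Not at h1'
      have s1 : ∑ l, (if f l = o1 then SS κ m K (Function.update f l o0) g else 0) = 0 :=
        Finset.sum_eq_zero fun l _ => if_neg (h1' l)
      have s2 : ∑ l, (if f l = o0 then SS κ m K (Function.update f l o1) g else 0) =
          SS κ m K (Function.update f j o1) g := by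
        rw [Finset.sum_eq_single j, if_pos hj]
        · intro l _ hl
          exact if_neg fun h => hl (hf (h.trans hj.symm))
        · intro h
          exact absurd (Finset.mem_univ _) h
      rw [s1, s2, sw_left hf hj h1]
      ring
    · rw [if_neg h0, if_pos h1]
      obtain ⟨j, hj⟩ := h1
      have h0' := h0
      push Not at h0'
      have s1 : ∑ l, (if f l = o0 then SS κ m K (Function.update f l o1) g else 0) = 0 :=
        Finset.sum_eq_zero fun l _ => if_neg (h0' l)
      have s2 : ∑ l, (if f l = o1 then SS κ m K (Function.update f l o0) g else 0) =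
          SS κ m K (Function.update f j o0) g := by
        rw [Finset.sum_eq_single j, if_pos hj]
        · intro l _ hl
          exact if_neg fun h => hl (hf (h.trans hj.symm))
        · intro h
          exact absurd (Finset.mem_univ _) h
      rw [s1, s2, sw_right hf hj h0]
      ring
    · rw [if_neg h0, if_neg h1]
      push Not at h0 h1
      have s1 : ∑ l, (if f l = o1 then SS κ m K (Function.update f l o0) g else 0) = 0 :=
        Finset.sum_eq_zero fun l _ => if_neg (h1 l)
      have s2 : ∑ l, (if f l = o0 then SS κ m K (Function.update f l o1) g else 0) = 0 :=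
        Finset.sum_eq_zero fun l _ => if_neg (h0 l)
      rw [s1, s2]
      ring
  · rw [SS_sw_zero hf, rh_SS, Matrix.mul_apply]
    simp only [SS_zero hf, zero_mul, Finset.sum_const_zero]
    ring

/-- the antisymmetrizer -/
noncomputable def ET (κ : Type*) [DecidableEq κ] (m : ℕ) (K : Type*) [Field K] : Matrix (Fin m → κ) (Fin m → κ) K :=
  ((m.factorial : K)⁻¹) • SS κ m K

theorem fac_ne : (m.factorial : K) ≠ 0 := by exact_mod_cast m.factorial_ne_zero

theorem ET_sq : ET κ m K * ET κ m K = ET κ m K := by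
  unfold ET
  rw [smul_mul_smul_comm, SS_sq, smul_smul, mul_assoc, inv_mul_cancel₀ fac_ne, mul_one]

theorem TP_ET (A : Matrix κ κ K) : TP m A * ET κ m K = ET κ m K * TP m A := by
  unfold ET
  rw [mul_smul_comm, smul_mul_assoc, TP_SS]

theorem rh_ET (A : Matrix κ κ K) : rh m A * ET κ m K = ET κ m K * rh m A := by
  unfold ET
  rw [mul_smul_comm, smul_mul_assoc, rh_SS]

theorem ET_transpose : (ET κ m K)ᵀ = ET κ m K := by
  unfold ET
  rw [Matrix.transpose_smul, SS_transpose]

theorem ET_map {L : Type*} [Field L] (φ : K →+* L) : (ET κ m K).map φ = ET κ m L := by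
  unfold ET
  ext f g
  have h1 := congrFun (congrFun (SS_map (κ := κ) (m := m) φ) f) g
  rw [Matrix.map_apply] at h1
  rw [Matrix.map_apply, Matrix.smul_apply, Matrix.smul_apply, smul_eq_mul, smul_eq_mul, map_mul, map_inv₀, map_natCast,
    h1]

theorem key1E {o0 o1 : κ} (h01 : o0 ≠ o1) :
    TP m (RW K o0 o1) * ET κ m K + TP m (RT K o0 o1) * ET κ m K = ET κ m K + TP m (QW K o0 o1) * ET κ m K := by
  unfold ET
  rw [mul_smul_comm, mul_smul_comm, mul_smul_comm, ← smul_add, key1 h01, smul_add]

theorem key2E {o0 o1 : κ} (h01 : o0 ≠ o1) :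
    TP m (RW K o0 o1) * ET κ m K - TP m (RT K o0 o1) * ET κ m K = (2 : K) • (rh m (JW K o0 o1) * ET κ m K) := by
  unfold ET
  rw [mul_smul_comm, mul_smul_comm, mul_smul_comm, ← smul_sub, key2 h01, smul_comm]

end field

end MH.Her27.S4
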