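import Pool.Agent.Helper27.S4.Hodge

/-!
Project LT (MP_b8862a_ag), sharpness: exterior powers of structures of K3 type. The commutant.
-/

set_option linter.unusedSectionVars false

open Matrix Polynomial

namespace MH.Her27.S4

variable {κ : Type*} [Fintype κ] [DecidableEq κ] {m : ℕ} {o0 o1 : κ}

/-! ### matrices that commute with many monomial matrices -/

/-- the sign of a coordinate -/
noncomputable def sn (o : κ) (f : Fin m → κ) : ℂ := ∏ k, (if f k = o then (-1 : ℂ) else 1)

theorem sn_eq {f : Fin m → κ} (hf : Function.Injective f) (o : κ) : sn o f = if ∃ k, f k = o then -1 else 1 :=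
  prod_sign hf o

theorem sn_sq (o : κ) (f : Fin m → κ) : sn o f * sn o f = 1 := by
  unfold sn
  rw [← Finset.prod_mul_distrib]
  refine Finset.prod_eq_one fun k _ => ?_
  split_ifs <;> ring

/-- the diagonal matrix that changes the signs of two coordinates -/
noncomputable def DD (a b : κ) : Matrix κ κ ℂ := mo 1 fun x => (if x = a then -1 else 1) * (if x = b then -1 else 1)

theorem DD_comm {A : Matrix (Fin m → κ) (Fin m → κ) ℂ} {a b : κ} (h : A * TP m (DD a b) = TP m (DD a b) * A)
    (f g : Fin m → κ) : A f g * (sn a g * sn b g) = sn a f * sn b f * A f g := by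
  have h1 := congrFun (congrFun h f) g
  unfold DD at h1
  rw [mul_TP_mo, TP_mo_mul, Finset.prod_mul_distrib] at h1
  have e1 : (∏ k, ((if (Equiv.symm (1 : Equiv.Perm κ)) (f k) = a then (-1 : ℂ) else 1) *
      (if (Equiv.symm (1 : Equiv.Perm κ)) (f k) = b then -1 else 1))) = sn a f * sn b f := by
    rw [Finset.prod_mul_distrib]
    rfl
  rw [e1] at h1
  exact h1

theorem col_sign {A : Matrix (Fin m → κ) (Fin m → κ) ℂ} (hA : A * ET κ m ℂ = A) (f g : Fin m → κ)
    (ρ : Equiv.Perm (Fin m)) : A f (g ∘ ρ) = ((Equiv.Perm.sign ρ : ℤ) : ℂ) * A f g := by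
  have h1 : ∀ h, SS κ m ℂ h (g ∘ ρ) = ((Equiv.Perm.sign ρ : ℤ) : ℂ) * SS κ m ℂ h g := by
    intro h
    have e1 := congrFun (congrFun (SS_transpose (κ := κ) (m := m) (K := ℂ)) h) (g ∘ ρ)
    have e2 := congrFun (congrFun (SS_transpose (κ := κ) (m := m) (K := ℂ)) h) g
    rw [Matrix.transpose_apply] at e1 e2
    rw [← e1, ← e2, SS_row]
  have h2 : ∀ h, A f h = ((m.factorial : ℂ)⁻¹) * ∑ x, A f x * SS κ m ℂ x h := by
    intro h
    conv_lhs => rw [← hA]
    unfold ET
    rw [mul_smul_comm, Matrix.smul_apply, Matrix.mul_apply, smul_eq_mul]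
  rw [h2 (g ∘ ρ), h2 g, Finset.mul_sum, Finset.mul_sum, Finset.mul_sum]
  refine Finset.sum_congr rfl fun x _ => ?_
  rw [h1]
  ring

theorem row_zero {A : Matrix (Fin m → κ) (Fin m → κ) ℂ} (hA : ET κ m ℂ * A = A) {f : Fin m → κ}
    (hf : ¬ Function.Injective f) (g : Fin m → κ) : A f g = 0 := by
  rw [← hA]
  unfold ET
  rw [smul_mul_assoc, Matrix.smul_apply, Matrix.mul_apply, Finset.sum_eq_zero, smul_zero]
  intro x _
  rw [SS_zero hf, zero_mul]

theorem col_zero {A : Matrix (Fin m → κ) (Fin m → κ) ℂ} (hA : A * ET κ m ℂ = A) (f : Fin m → κ) {g : Fin m → κ}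
    (hg : ¬ Function.Injective g) : A f g = 0 := by
  have h1 := row_zero (A := Aᵀ) (by rw [← ET_transpose, ← Matrix.transpose_mul, hA]) hg f
  exact h1

/-- Maps with the same range differ by a permutation. -/
theorem exists_perm {f g : Fin m → κ} (_hf : Function.Injective f) (hg : Function.Injective g)
    (h : ∀ o, (∃ k, f k = o) ↔ (∃ k, g k = o)) : ∃ σ : Equiv.Perm (Fin m), g = f ∘ σ := by
  have h1 : ∀ k, ∃ l, f l = g k := fun k => (h (g k)).2 ⟨k, rfl⟩
  choose s hs using h1
  have hs1 : Function.Injective s := by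
    intro a b hab
    apply hg
    rw [← hs a, ← hs b, hab]
  refine ⟨Equiv.ofBijective s (Finite.injective_iff_bijective.1 hs1), ?_⟩
  funext k
  exact (hs k).symm

/-- Two injective maps differ by a permutation of the target. -/
theorem exists_target {f g : Fin m → κ} (hf : Function.Injective f) (hg : Function.Injective g) :
    ∃ π : Equiv.Perm κ, π ∘ f = g := by
  classical
  let e : {x // x ∈ Set.range f} ≃ {x // x ∈ Set.range g} :=
    (Equiv.ofInjective f hf).symm.trans (Equiv.ofInjective g hg)
  refine ⟨Equiv.extendSubtype e, ?_⟩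
  funext k
  have h1 := Equiv.extendSubtype_apply_of_mem e (f k) ⟨k, rfl⟩
  rw [Function.comp_apply, h1]
  simp only [e, Equiv.trans_apply]
  have h2 : (Equiv.ofInjective f hf).symm ⟨f k, ⟨k, rfl⟩⟩ = k := by
    rw [Equiv.symm_apply_eq]
    rfl
  rw [h2]
  rfl

theorem scalar_of_mono {A : Matrix (Fin m → κ) (Fin m → κ) ℂ} (h2m : 2 * m < Fintype.card κ)
    (hA1 : A * ET κ m ℂ = A) (hA2 : ET κ m ℂ * A = A) (o : κ)
    (hD : ∀ a, a ≠ o → A * TP m (DD a o) = TP m (DD a o) * A)
    (hM : ∀ a b : κ, a ≠ b → ∀ g : Fin m → κ, A (Equiv.swap a b ∘ g) (Equiv.swap a b ∘ g) = A g g)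
    (f0 : Fin m → κ) (hf0 : Function.Injective f0) : A = (A f0 f0) • SS κ m ℂ := by
  -- off the diagonal
  have hoff : ∀ f g : Fin m → κ, Function.Injective f → Function.Injective g → A f g ≠ 0 →
      ∀ a, (∃ k, f k = a) ↔ (∃ k, g k = a) := by
    intro f g hf hg hne
    have h1 : ∀ a, a ≠ o → sn a g * sn o g = sn a f * sn o f := by
      intro a ha
      have := DD_comm (hD a ha) f g
      rw [mul_comm (A f g)] at this
      exact mul_right_cancel₀ hne this
    have h2 : ∀ a, sn a f * sn a g = sn o f * sn o g := by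
      intro a
      by_cases ha : a = o
      · rw [ha]
      · have h3 := h1 a ha
        calc sn a f * sn a g = sn a f * (sn a g * sn o g) * sn o g := by
              rw [← mul_assoc, mul_assoc (sn a f * sn a g), sn_sq, mul_one]
          _ = (sn a f * sn a f) * sn o f * sn o g := by rw [h3]; ring
          _ = _ := by rw [sn_sq, one_mul]
    by_cases h5 : sn o f * sn o g = 1
    · intro a
      have h6 := h2 a
      rw [h5, sn_eq hf, sn_eq hg] at h6
      by_cases p : ∃ k, f k = a <;> by_cases q : ∃ k, g k = a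
      · exact ⟨fun _ => q, fun _ => p⟩
      · rw [if_pos p, if_neg q] at h6
        norm_num at h6
      · rw [if_neg p, if_pos q] at h6
        norm_num at h6
      · exact ⟨fun h => absurd h p, fun h => absurd h q⟩
    · exfalso
      have h7 : ∀ a, (∃ k, f k = a) ∨ (∃ k, g k = a) := by
        intro a
        by_contra hcon
        push Not at hcon
        have p : ¬ ∃ k, f k = a := by push Not; exact hcon.1
        have q : ¬ ∃ k, g k = a := by push Not; exact hcon.2
        have h6 := h2 a
        rw [sn_eq hf, sn_eq hg, if_neg p, if_neg q, mul_one] at h6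
        exact h5 h6.symm
      have h8 : (Finset.univ : Finset κ) ⊆ Finset.univ.image f ∪ Finset.univ.image g := by
        intro a _
        rw [Finset.mem_union, Finset.mem_image, Finset.mem_image]
        rcases h7 a with ⟨k, hk⟩ | ⟨k, hk⟩
        · exact Or.inl ⟨k, Finset.mem_univ _, hk⟩
        · exact Or.inr ⟨k, Finset.mem_univ _, hk⟩
      have h9 := Finset.card_le_card h8
      have h10 := Finset.card_union_le (Finset.univ.image f) (Finset.univ.image g)
      have h11 : (Finset.univ.image f).card ≤ m := by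
        have := Finset.card_image_le (s := (Finset.univ : Finset (Fin m))) (f := f)
        simpa using this
      have h12 : (Finset.univ.image g).card ≤ m := by
        have := Finset.card_image_le (s := (Finset.univ : Finset (Fin m))) (f := g)
        simpa using this
      rw [Finset.card_univ] at h9
      omega
  -- the diagonal entries
  have hinv : ∀ (π : Equiv.Perm κ) (g : Fin m → κ), A (π ∘ g) (π ∘ g) = A g g := by
    intro π
    induction π using Equiv.Perm.swap_induction_on with
    | one => intro g; rfl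
    | swap_mul π a b hab ih =>
      intro g
      have := hM a b hab (π ∘ g)
      rw [Equiv.Perm.coe_mul, Function.comp_assoc, this, ih g]
  have hdiag : ∀ f : Fin m → κ, Function.Injective f → A f f = A f0 f0 := by
    intro f hf
    obtain ⟨π, hπ⟩ := exists_target hf0 hf
    rw [← hπ, hinv]
  ext f g
  rw [Matrix.smul_apply, smul_eq_mul]
  by_cases hf : Function.Injective f
  · by_cases hg : Function.Injective g
    · by_cases h : ∀ a, (∃ k, f k = a) ↔ (∃ k, g k = a)
      · obtain ⟨σ, rfl⟩ := exists_perm hf hg h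
        have e1 := col_sign (A := SS κ m ℂ) (by
          unfold ET
          rw [mul_smul_comm, SS_sq, smul_smul, inv_mul_cancel₀ fac_ne, one_smul]) f f σ
        rw [col_sign hA1 f f σ, e1, SS_self hf, hdiag f hf]
        ring
      · have e1 : A f g = 0 := by
          by_contra hne
          exact h (hoff f g hf hg hne)
        have e2 : SS κ m ℂ f g = 0 := by
          rw [SS_apply]
          refine Finset.sum_eq_zero fun σ _ => if_neg fun hσ => h fun a => ?_
          subst hσ
          constructor
          · rintro ⟨k, hk⟩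
            exact ⟨σ⁻¹ k, by simpa using hk⟩
          · rintro ⟨k, hk⟩
            exact ⟨σ k, hk⟩
        rw [e1, e2, mul_zero]
    · have e2 : SS κ m ℂ f g = 0 := by
        have := congrFun (congrFun (SS_transpose (κ := κ) (m := m) (K := ℂ)) f) g
        rw [← this, Matrix.transpose_apply, SS_zero hg]
      rw [col_zero hA1 f hg, e2, mul_zero]
  · rw [row_zero hA2 hf, SS_zero hf, mul_zero]

/-- commutation with a monomial matrix gives the invariance of the diagonal -/
theorem diag_of_comm {A : Matrix (Fin m → κ) (Fin m → κ) ℂ} {π : Equiv.Perm κ} {d : κ → ℂ} (hd : ∀ b, d b ≠ 0)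
    (h : A * TP m (mo π d) = TP m (mo π d) * A) (g : Fin m → κ) : A (π ∘ g) (π ∘ g) = A g g := by
  have h1 := congrFun (congrFun h (π ∘ g)) g
  rw [mul_TP_mo, TP_mo_mul] at h1
  have e1 : π.symm ∘ (π ∘ g) = g := by
    funext x
    simp
  have e2 : (∏ k, d (π.symm ((π ∘ g) k))) = ∏ k, d (g k) := by
    refine Finset.prod_congr rfl fun k _ => ?_
    simp
  rw [e1, e2, mul_comm] at h1
  exact mul_left_cancel₀ (Finset.prod_ne_zero_iff.2 fun k _ => hd _) h1

/-- the swaps with `o0` and `o1` generate -/
theorem swap_gen {A : Matrix (Fin m → κ) (Fin m → κ) ℂ} (o0 : κ)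
    (h : ∀ a, a ≠ o0 → ∀ g : Fin m → κ, A (Equiv.swap a o0 ∘ g) (Equiv.swap a o0 ∘ g) = A g g) (a b : κ) (hab : a ≠ b)
    (g : Fin m → κ) : A (Equiv.swap a b ∘ g) (Equiv.swap a b ∘ g) = A g g := by
  by_cases ha : a = o0
  · subst ha
    rw [Equiv.swap_comm]
    exact h b (Ne.symm hab) g
  · by_cases hb : b = o0
    · subst hb
      exact h a hab g
    · have e1 : Equiv.swap a b = Equiv.swap a o0 * Equiv.swap b o0 * Equiv.swap a o0 := by
        have := Equiv.swap_mul_swap_mul_swap (x := b) (y := o0) (z := a) hb (Ne.symm hab)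
        rw [Equiv.swap_comm a o0, this]
      rw [e1, Equiv.Perm.coe_mul, Equiv.Perm.coe_mul, Function.comp_assoc, Function.comp_assoc, h a ha, h b hb, h a ha]

end MH.Her27.S4
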