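import Pool.Agent.Helper27.S4.Com

/-!
Project LT (MP_b8862a_ag), sharpness: exterior powers of structures of K3 type. The family and its endomorphisms.
-/

set_option linter.unusedSectionVars false

open Matrix Polynomial

namespace MH.Her27.S4

variable {κ : Type*} [Fintype κ] [DecidableEq κ] {m : ℕ} {o0 o1 : κ}

section ring
variable {K L : Type*} [CommRing K] [CommRing L]

/-- the signs of the form -/
def sg (K : Type*) [CommRing K] (o0 o1 : κ) (b : κ) : K := (if b = o0 then -1 else 1) * (if b = o1 then -1 else 1)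

theorem sg_map (φ : K →+* L) (b : κ) : φ (sg K o0 o1 b) = sg L o0 o1 b := by
  unfold sg
  simp only [map_mul, apply_ite φ, map_neg, map_one]

theorem sg_sq (b : κ) : sg K o0 o1 b * sg K o0 o1 b = 1 := by
  unfold sg
  split_ifs <;> ring

theorem QW_eq : QW K o0 o1 = Matrix.diagonal (sg K o0 o1) := by
  unfold QW
  rw [mo_one]
  rfl

/-- the form -/
def qv (o0 o1 : κ) (v : κ → K) : K := ∑ b, sg K o0 o1 b * v b * v b

/-- the rank one matrix -/
def VV (o0 o1 : κ) (v : κ → K) : Matrix κ κ K := Matrix.of fun a b => v a * v b * sg K o0 o1 b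

theorem VV_mul (v : κ → K) : VV o0 o1 v * VV o0 o1 v = (qv o0 o1 v) • VV o0 o1 v := by
  ext a b
  rw [Matrix.mul_apply, Matrix.smul_apply, smul_eq_mul, qv, Finset.sum_mul]
  refine Finset.sum_congr rfl fun c _ => ?_
  simp only [VV, Matrix.of_apply]
  ring

/-- the reflection, not normalised -/
def UQ (o0 o1 : κ) (v : κ → K) : Matrix κ κ K := (2 : K) • VV o0 o1 v - (qv o0 o1 v) • (1 : Matrix κ κ K)

theorem UQ_sq (v : κ → K) : UQ o0 o1 v * UQ o0 o1 v = (qv o0 o1 v ^ 2) • (1 : Matrix κ κ K) := by
  unfold UQ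
  rw [sub_mul, mul_sub, mul_sub, smul_mul_smul_comm, smul_mul_smul_comm, smul_mul_smul_comm, smul_mul_smul_comm,
    VV_mul, mul_one, one_mul, mul_one]
  module

theorem QW_VV (v : κ → K) : QW K o0 o1 * VV o0 o1 v = (VV o0 o1 v)ᵀ * QW K o0 o1 := by
  rw [QW_eq]
  ext a b
  rw [Matrix.diagonal_mul, Matrix.mul_diagonal, Matrix.transpose_apply]
  simp only [VV, Matrix.of_apply]
  ring

theorem QW_UQ (v : κ → K) : QW K o0 o1 * UQ o0 o1 v = (UQ o0 o1 v)ᵀ * QW K o0 o1 := by
  unfold UQ
  rw [mul_sub, mul_smul_comm, mul_smul_comm, QW_VV, Matrix.transpose_sub, Matrix.transpose_smul, Matrix.transpose_smul,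
    Matrix.transpose_one, sub_mul, smul_mul_assoc, smul_mul_assoc, one_mul, mul_one]

theorem UQ_map (φ : K →+* L) (v : κ → K) : (UQ o0 o1 v).map φ = UQ o0 o1 (φ ∘ v) := by
  have h1 : φ (qv o0 o1 v) = qv o0 o1 (φ ∘ v) := by
    simp only [qv, map_sum, map_mul, sg_map, Function.comp_apply]
  ext a b
  simp only [UQ, Matrix.map_apply, Matrix.sub_apply, Matrix.smul_apply, smul_eq_mul, map_sub, map_mul, map_ofNat, h1,
    VV, Matrix.of_apply, sg_map, Function.comp_apply, Matrix.one_apply, apply_ite φ, map_one, map_zero]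

/-- the moved rotation, not normalised -/
def RR (m : ℕ) (o0 o1 : κ) (v : κ → K) : Matrix (Fin m → κ) (Fin m → κ) K :=
  TP m (UQ o0 o1 v * RW K o0 o1 * UQ o0 o1 v) * SS κ m K

theorem RR_map (φ : K →+* L) (v : κ → K) : (RR m o0 o1 v).map φ = RR m o0 o1 (φ ∘ v) := by
  unfold RR
  rw [Matrix.map_mul, TP_map, SS_map, Matrix.map_mul, Matrix.map_mul, UQ_map, RW_map]

end ring

/-- a polynomial identity on infinitely many real points of a line -/
theorem ext_line (B : Matrix (Fin m → κ) (Fin m → κ) ℂ) (a b : κ → ℂ) {R : Set ℝ} (hR : R.Infinite)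
    (h : ∀ τ ∈ R, B * RR m o0 o1 (fun i => a i + (τ : ℂ) * b i) = RR m o0 o1 (fun i => a i + (τ : ℂ) * b i) * B)
    (t : ℂ) : B * RR m o0 o1 (fun i => a i + t * b i) = RR m o0 o1 (fun i => a i + t * b i) * B := by
  let zX : κ → ℂ[X] := fun i => C (a i) + X * C (b i)
  let D : Matrix (Fin m → κ) (Fin m → κ) ℂ[X] :=
    B.map (C : ℂ →+* ℂ[X]) * RR m o0 o1 zX - RR m o0 o1 zX * B.map (C : ℂ →+* ℂ[X])
  have hev : ∀ τ : ℂ, D.map (evalRingHom τ) =
      B * RR m o0 o1 (fun i => a i + τ * b i) - RR m o0 o1 (fun i => a i + τ * b i) * B := by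
    intro τ
    have e1 : (RR m o0 o1 zX).map (evalRingHom τ) = RR m o0 o1 (fun i => a i + τ * b i) := by
      rw [RR_map]
      congr 1
      funext i
      simp [zX]
      ring
    have e2 : (B.map (C : ℂ →+* ℂ[X])).map (evalRingHom τ) = B := by
      ext x y
      simp
    have e3 : D.map (evalRingHom τ) = (B.map (C : ℂ →+* ℂ[X]) * RR m o0 o1 zX).map (evalRingHom τ) -
        (RR m o0 o1 zX * B.map (C : ℂ →+* ℂ[X])).map (evalRingHom τ) := by
      ext x y
      simp only [D, Matrix.map_apply, Matrix.sub_apply, map_sub]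
    rw [e3, Matrix.map_mul, Matrix.map_mul, e1, e2]
  have hD : D = 0 := by
    ext1 x y
    refine Polynomial.eq_zero_of_infinite_isRoot _ ?_
    refine Set.Infinite.mono ?_ (hR.image (Complex.ofReal_injective.injOn))
    rintro _ ⟨τ, hτ, rfl⟩
    have h1 := hev τ
    rw [h _ hτ, sub_self] at h1
    have h2 := congrFun (congrFun h1 x) y
    rw [Matrix.map_apply, Matrix.zero_apply] at h2
    exact h2
  have h1 := hev t
  rw [hD] at h1
  have e5 : (0 : Matrix (Fin m → κ) (Fin m → κ) ℂ[X]).map (evalRingHom t) = 0 := by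
    ext x y
    simp
  rw [e5] at h1
  exact (sub_eq_zero.1 h1.symm)

/-- the complex vector of a real vector -/
def cv (v : κ → ℝ) : κ → ℂ := fun i => (v i : ℂ)

/-- a polynomial identity on an open set of real points holds everywhere -/
theorem ext_all (B : Matrix (Fin m → κ) (Fin m → κ) ℂ) {W : Set (κ → ℝ)} (hW : IsOpen W) {v0 : κ → ℝ} (h0 : v0 ∈ W)
    (h : ∀ v ∈ W, B * RR m o0 o1 (cv v) = RR m o0 o1 (cv v) * B) (z : κ → ℂ) :
    B * RR m o0 o1 z = RR m o0 o1 z * B := by
  have h1 : ∀ v : κ → ℝ, B * RR m o0 o1 (cv v) = RR m o0 o1 (cv v) * B := by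
    intro v
    have hcont : Continuous fun τ : ℝ => (fun i => v0 i + τ * (v i - v0 i) : κ → ℝ) := by fun_prop
    have hopen : IsOpen {τ : ℝ | (fun i => v0 i + τ * (v i - v0 i) : κ → ℝ) ∈ W} := hW.preimage hcont
    have hmem : (0 : ℝ) ∈ {τ : ℝ | (fun i => v0 i + τ * (v i - v0 i) : κ → ℝ) ∈ W} := by
      simpa using h0
    have hinf : {τ : ℝ | (fun i => v0 i + τ * (v i - v0 i) : κ → ℝ) ∈ W}.Infinite :=
      infinite_of_mem_nhds (0 : ℝ) (hopen.mem_nhds hmem)
    have e := ext_line B (cv v0) (fun i => ((v i - v0 i : ℝ) : ℂ)) hinf (by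
      intro τ hτ
      have := h _ hτ
      have e1 : cv (fun i => v0 i + τ * (v i - v0 i)) =
          fun i => (cv v0) i + (τ : ℂ) * ((v i - v0 i : ℝ) : ℂ) := by
        funext i
        simp [cv]
      rw [e1] at this
      exact this) 1
    have e4 : (fun i => (cv v0) i + 1 * ((v i - v0 i : ℝ) : ℂ)) = cv v := by
      funext i
      simp [cv]
    rw [e4] at e
    exact e
  have e := ext_line B (fun i => ((z i).re : ℂ)) (fun i => ((z i).im : ℂ)) (Set.infinite_univ (α := ℝ)) (by
    intro τ _
    have := h1 (fun i => (z i).re + τ * (z i).im)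
    have e1 : cv (fun i => (z i).re + τ * (z i).im) = fun i => ((z i).re : ℂ) + (τ : ℂ) * ((z i).im : ℂ) := by
      funext i
      simp [cv]
    rw [e1] at this
    exact this) Complex.I
  have e4 : (fun i => ((z i).re : ℂ) + Complex.I * ((z i).im : ℂ)) = z := by
    funext i
    rw [mul_comm]
    exact Complex.re_add_im (z i)
  rw [e4] at e
  exact e

/-! ### the special points -/

theorem UQ_special {o j : κ} (hoj : o ≠ j) (ho : sg ℂ o0 o1 o = -1) (hj : sg ℂ o0 o1 j = 1) :
    UQ o0 o1 (fun b => if b = o then (1 : ℂ) else if b = j then Complex.I else 0) =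
      (2 : ℂ) • mo (Equiv.swap o j) fun b => if b = j then Complex.I else if b = o then -Complex.I else 1 := by
  have hq : qv o0 o1 (fun b => if b = o then (1 : ℂ) else if b = j then Complex.I else 0) = -2 := by
    unfold qv
    rw [← Finset.add_sum_erase _ _ (Finset.mem_univ o), ← Finset.add_sum_erase _ _
      (Finset.mem_erase.2 ⟨Ne.symm hoj, Finset.mem_univ j⟩), Finset.sum_eq_zero]
    · simp only [if_true, if_neg (Ne.symm hoj), ho, hj]
      linear_combination Complex.I_mul_I
    · intro b hb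
      simp only [Finset.mem_erase, Finset.mem_univ, and_true] at hb
      simp [hb.1, hb.2]
  unfold UQ
  rw [hq]
  ext a b
  simp only [Matrix.sub_apply, Matrix.smul_apply, smul_eq_mul, VV, Matrix.of_apply, Matrix.one_apply, mo_apply]
  by_cases hbo : b = o
  · subst hbo
    rw [Equiv.swap_apply_left]
    simp only [if_true, if_neg hoj, ho]
    by_cases ha : a = b
    · subst ha
      simp [hoj]
    · by_cases haj : a = j
      · subst haj
        simp [ha]
      · simp [ha, haj]
  · by_cases hbj : b = j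
    · subst hbj
      rw [Equiv.swap_apply_right]
      simp only [if_neg hbo, if_true, hj]
      by_cases ha : a = o
      · subst ha
        simp [hoj]
      · by_cases haj : a = b
        · subst haj
          simp only [if_neg ha, if_true]
          linear_combination 2 * Complex.I_mul_I
        · simp [ha, haj]
    · rw [Equiv.swap_apply_of_ne_of_ne hbo hbj]
      simp only [if_neg hbo, if_neg hbj]
      by_cases ha : a = b <;> simp [ha]

theorem TPc {A : Matrix (Fin m → κ) (Fin m → κ) ℂ} (hA1 : A * ET κ m ℂ = A) (hA2 : ET κ m ℂ * A = A)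
    {T : Matrix κ κ ℂ} {c : ℂ} (hc : c ≠ 0) (h : A * (TP m (c • T) * SS κ m ℂ) = TP m (c • T) * SS κ m ℂ * A) :
    A * TP m T = TP m T * A := by
  have h1 : SS κ m ℂ = (m.factorial : ℂ) • ET κ m ℂ := by
    unfold ET
    rw [smul_smul, mul_inv_cancel₀ fac_ne, one_smul]
  rw [TP_smul, h1, smul_mul_assoc, mul_smul_comm, mul_smul_comm, mul_smul_comm, smul_mul_assoc, smul_mul_assoc] at h
  have h2 := smul_right_injective _ (pow_ne_zero m hc) h
  have h3 := smul_right_injective _ (fac_ne (K := ℂ) (m := m)) h2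
  have e1 : A * (TP m T * ET κ m ℂ) = A * TP m T := by
    rw [TP_ET, ← mul_assoc, hA1]
  have e2 : TP m T * ET κ m ℂ * A = TP m T * A := by
    rw [mul_assoc, hA2]
  rw [← e1, ← e2]
  exact h3

theorem comm_sq {A : Matrix (Fin m → κ) (Fin m → κ) ℂ} {T : Matrix κ κ ℂ} (h : A * TP m T = TP m T * A) :
    A * TP m (T * T) = TP m (T * T) * A := by
  rw [← TP_mul, ← mul_assoc, h, mul_assoc, h, mul_assoc]

theorem scalar_of_RR (h01 : o0 ≠ o1) (h2m : 2 * m < Fintype.card κ) {A : Matrix (Fin m → κ) (Fin m → κ) ℂ}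
    (hA1 : A * ET κ m ℂ = A) (hA2 : ET κ m ℂ * A = A)
    (h : ∀ z : κ → ℂ, A * RR m o0 o1 z = RR m o0 o1 z * A) (f0 : Fin m → κ) (hf0 : Function.Injective f0) :
    A = (A f0 f0) • SS κ m ℂ := by
  have s0 : sg ℂ o0 o1 o0 = -1 := by simp [sg, h01]
  have s1 : sg ℂ o0 o1 o1 = -1 := by simp [sg, Ne.symm h01]
  have sj : ∀ j, j ≠ o0 → j ≠ o1 → sg ℂ o0 o1 j = 1 := fun j h0 h1 => by simp [sg, h0, h1]
  -- the swap of `o0` and `o1`
  have c01 : A * TP m (RT ℂ o0 o1) = TP m (RT ℂ o0 o1) * A := by
    have h1 := h (fun b => if b = o0 then (1 : ℂ) else 0)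
    have hq : qv o0 o1 (fun b => if b = o0 then (1 : ℂ) else 0) = -1 := by
      unfold qv
      rw [Finset.sum_eq_single o0]
      · simp [s0]
      · intro b _ hb
        simp [hb]
      · intro h'
        exact absurd (Finset.mem_univ _) h'
    have hU : UQ o0 o1 (fun b => if b = o0 then (1 : ℂ) else 0) = mo 1 fun b => if b = o0 then -1 else 1 := by
      unfold UQ
      rw [hq]
      ext a b
      simp only [Matrix.sub_apply, Matrix.smul_apply, smul_eq_mul, VV, Matrix.of_apply, Matrix.one_apply, mo_apply,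
        Equiv.Perm.coe_one, id_eq]
      by_cases hb : b = o0
      · subst hb
        by_cases ha : a = b
        · subst ha
          simp [s0]
          norm_num
        · simp [ha]
      · by_cases ha : a = b
        · subst ha
          simp [hb]
        · simp [ha, hb]
    have e1 : UQ o0 o1 (fun b => if b = o0 then (1 : ℂ) else 0) * RW ℂ o0 o1 *
        UQ o0 o1 (fun b => if b = o0 then (1 : ℂ) else 0) = (1 : ℂ) • RT ℂ o0 o1 := by
      rw [hU, RW, RT, mo_mul, mo_mul, one_mul, mul_one, one_smul]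
      congr 1
      funext b
      simp only [Equiv.Perm.coe_one, id_eq, sw_eq_left]
      split_ifs <;> norm_num
    unfold RR at h1
    rw [e1] at h1
    exact TPc hA1 hA2 one_ne_zero h1
  -- the swaps of `j` and `o1`
  have cj1 : ∀ j, j ≠ o0 → j ≠ o1 → A * TP m (mo (Equiv.swap j o1) fun b => if b = j ∨ b = o1 then Complex.I else 1) =
      TP m (mo (Equiv.swap j o1) fun b => if b = j ∨ b = o1 then Complex.I else 1) * A := by
    intro j hj0 hj1
    have h1 := h (fun b => if b = o0 then (1 : ℂ) else if b = j then Complex.I else 0)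
    unfold RR at h1
    rw [UQ_special (Ne.symm hj0) s0 (sj j hj0 hj1)] at h1
    have e1 : (2 : ℂ) • (mo (Equiv.swap o0 j) fun b => if b = j then Complex.I else if b = o0 then -Complex.I else 1) *
        RW ℂ o0 o1 * (2 : ℂ) • (mo (Equiv.swap o0 j) fun b => if b = j then Complex.I else if b = o0 then
          -Complex.I else 1) = (4 : ℂ) • mo (Equiv.swap j o1) fun b => if b = j ∨ b = o1 then Complex.I else 1 := by
      rw [smul_mul_assoc, mul_smul_comm, smul_mul_assoc, smul_smul, RW, mo_mul, mo_mul,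
        show (2 : ℂ) * 2 = 4 by norm_num]
      congr 1
      have e2 : Equiv.swap o0 j * Equiv.swap o0 o1 * Equiv.swap o0 j = Equiv.swap j o1 := by
        have := Equiv.swap_mul_swap_mul_swap (x := o1) (y := o0) (z := j) (Ne.symm h01) (Ne.symm hj1)
        rw [Equiv.swap_comm o1 o0] at this
        exact this
      rw [e2]
      congr 1
      funext b
      by_cases b0 : b = o0
      · subst b0
        rw [Equiv.swap_apply_left, Equiv.swap_apply_of_ne_of_ne hj0 hj1]
        simp [hj1, Ne.symm hj0, h01]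
      · by_cases bj : b = j
        · subst bj
          rw [Equiv.swap_apply_right, Equiv.swap_apply_left]
          simp [Ne.symm hj1, Ne.symm h01, h01]
        · by_cases b1 : b = o1
          · subst b1
            rw [Equiv.swap_apply_of_ne_of_ne (Ne.symm h01) (Ne.symm hj1), Equiv.swap_apply_right]
            simp [Ne.symm hj1, Ne.symm h01, Ne.symm hj0]
          · rw [Equiv.swap_apply_of_ne_of_ne b0 bj, Equiv.swap_apply_of_ne_of_ne b0 b1]
            simp [b0, bj, b1]
    rw [e1] at h1
    exact TPc hA1 hA2 (by norm_num) h1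
  -- the swaps of `j` and `o0`
  have cj0 : ∀ j, j ≠ o0 → j ≠ o1 → A * TP m (mo (Equiv.swap j o0) fun b => if b = j ∨ b = o0 then -Complex.I else 1) =
      TP m (mo (Equiv.swap j o0) fun b => if b = j ∨ b = o0 then -Complex.I else 1) * A := by
    intro j hj0 hj1
    have h1 := h (fun b => if b = o1 then (1 : ℂ) else if b = j then Complex.I else 0)
    unfold RR at h1
    rw [UQ_special (Ne.symm hj1) s1 (sj j hj0 hj1)] at h1
    have e1 : (2 : ℂ) • (mo (Equiv.swap o1 j) fun b => if b = j then Complex.I else if b = o1 then -Complex.I else 1) *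
        RW ℂ o0 o1 * (2 : ℂ) • (mo (Equiv.swap o1 j) fun b => if b = j then Complex.I else if b = o1 then
          -Complex.I else 1) = (4 : ℂ) • mo (Equiv.swap j o0) fun b => if b = j ∨ b = o0 then -Complex.I else 1 := by
      rw [smul_mul_assoc, mul_smul_comm, smul_mul_assoc, smul_smul, RW, mo_mul, mo_mul,
        show (2 : ℂ) * 2 = 4 by norm_num]
      congr 1
      have e2 : Equiv.swap o1 j * Equiv.swap o0 o1 * Equiv.swap o1 j = Equiv.swap j o0 :=
        Equiv.swap_mul_swap_mul_swap (x := o0) (y := o1) (z := j) h01 (Ne.symm hj0)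
      rw [e2]
      congr 1
      funext b
      by_cases b1 : b = o1
      · subst b1
        rw [Equiv.swap_apply_left, Equiv.swap_apply_of_ne_of_ne hj0 hj1]
        simp [hj1, Ne.symm hj1, Ne.symm h01]
      · by_cases bj : b = j
        · subst bj
          rw [Equiv.swap_apply_right, Equiv.swap_apply_right]
          simp [Ne.symm hj0, h01]
        · by_cases b0 : b = o0
          · subst b0
            rw [Equiv.swap_apply_of_ne_of_ne h01 (Ne.symm hj0), Equiv.swap_apply_left]
            simp [Ne.symm hj1, h01, Ne.symm hj0]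
          · rw [Equiv.swap_apply_of_ne_of_ne b1 bj, Equiv.swap_apply_of_ne_of_ne b0 b1]
            simp [b0, bj, b1]
    rw [e1] at h1
    exact TPc hA1 hA2 (by norm_num) h1
  have hM0 : ∀ a, a ≠ o0 → ∀ g : Fin m → κ, A (Equiv.swap a o0 ∘ g) (Equiv.swap a o0 ∘ g) = A g g := by
    intro a ha g
    by_cases ha1 : a = o1
    · subst ha1
      rw [Equiv.swap_comm]
      exact diag_of_comm (fun b => by split_ifs <;> norm_num) c01 g
    · exact diag_of_comm (fun b => by
        split_ifs
        · exact neg_ne_zero.2 Complex.I_ne_zero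
        · exact one_ne_zero) (cj0 a ha ha1) g
  refine scalar_of_mono h2m hA1 hA2 o0 (fun a ha => ?_) (swap_gen o0 hM0) f0 hf0
  by_cases ha1 : a = o1
  · subst ha1
    have := comm_sq c01
    rw [RT_RT] at this
    have e1 : QW ℂ o0 a = DD a o0 := by
      unfold QW DD
      congr 1
      funext b
      ring
    rw [← e1]
    exact this
  · have := comm_sq (cj0 a ha ha1)
    rw [mo_mul, Equiv.swap_mul_self] at this
    have e1 : (mo 1 fun b => (if Equiv.swap a o0 b = a ∨ Equiv.swap a o0 b = o0 then -Complex.I else 1) *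
        (if b = a ∨ b = o0 then -Complex.I else 1)) = DD a o0 := by
      unfold DD
      congr 1
      funext b
      by_cases ba : b = a
      · subst ba
        rw [Equiv.swap_apply_left]
        simp [ha]
      · by_cases b0 : b = o0
        · subst b0
          rw [Equiv.swap_apply_right]
          simp [ba]
        · rw [Equiv.swap_apply_of_ne_of_ne ba b0]
          simp [ba, b0]
    rw [e1] at this
    exact this

end MH.Her27.S4
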