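import Pool.Agent.Helper27.S4.Tr
import Pool.Agent.Helper27.PGN.Fin
import Pool.Agent.Helper94.SH.Fact
import Pool.Agent.Helper94.SH.NotFull
import Pool.Agent.Helper55.UG.TateGQ
import Pool.Agent.Helper24.PGN.GQ

/-!
Project LT (MP_b8862a_ag), sharpness, clause 4: exterior powers of structures of K3 type. The theorem.
-/

set_option linter.unusedSectionVars false
set_option linter.unusedSimpArgs false

open Matrix

namespace MH.Her27.S4

variable {κ : Type*} [Fintype κ] [DecidableEq κ] {m : ℕ} {o0 o1 : κ}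

/-- the real form -/
def qr (o0 o1 : κ) (v : κ → ℝ) : ℝ := qv o0 o1 v

theorem qv_cv (v : κ → ℝ) : qv o0 o1 (cv v) = (qr o0 o1 v : ℂ) := by
  unfold qr qv
  rw [Complex.ofReal_sum]
  refine Finset.sum_congr rfl fun b _ => ?_
  have h1 : sg ℂ o0 o1 b = ((sg ℝ o0 o1 b : ℝ) : ℂ) := (sg_map Complex.ofRealHom b).symm
  rw [h1]
  simp [cv]

/-- the reflection -/
noncomputable def UU (o0 o1 : κ) (v : κ → ℝ) : Matrix κ κ ℂ := (qv o0 o1 (cv v))⁻¹ • UQ o0 o1 (cv v)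

variable {v : κ → ℝ}

theorem qne (hq : qr o0 o1 v ≠ 0) : qv o0 o1 (cv v) ≠ 0 := by
  rw [qv_cv]
  exact_mod_cast hq

theorem UU_sq (hq : qr o0 o1 v ≠ 0) : UU o0 o1 v * UU o0 o1 v = 1 := by
  have h := qne hq
  unfold UU
  rw [smul_mul_smul_comm, UQ_sq, smul_smul]
  have : (qv o0 o1 (cv v))⁻¹ * (qv o0 o1 (cv v))⁻¹ * qv o0 o1 (cv v) ^ 2 = 1 := by field_simp
  rw [this, one_smul]

theorem UU_conj : (UU o0 o1 v).map (starRingEnd ℂ) = UU o0 o1 v := by
  unfold UU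
  rw [map_smul', UQ_map, map_inv₀, qv_cv, Complex.conj_ofReal]
  have : (starRingEnd ℂ) ∘ (cv v) = cv v := by
    funext i
    simp [cv]
  rw [this]

theorem UU_QW (hq : qr o0 o1 v ≠ 0) : (UU o0 o1 v)ᵀ * QW ℂ o0 o1 * UU o0 o1 v = QW ℂ o0 o1 := by
  have h1 : QW ℂ o0 o1 * UU o0 o1 v = (UU o0 o1 v)ᵀ * QW ℂ o0 o1 := by
    unfold UU
    rw [mul_smul_comm, QW_UQ, Matrix.transpose_smul, smul_mul_assoc]
  rw [← h1, mul_assoc, UU_sq hq, mul_one]

/-- the real isometry -/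
noncomputable def GG (m : ℕ) (o0 o1 : κ) (v : κ → ℝ) : Matrix (Fin m → κ) (Fin m → κ) ℂ := TP m (UU o0 o1 v)

theorem GG_sq (hq : qr o0 o1 v ≠ 0) : GG m o0 o1 v * GG m o0 o1 v = 1 := by
  unfold GG
  rw [TP_mul, UU_sq hq, TP_one]

theorem GG_conj : (GG m o0 o1 v).map (starRingEnd ℂ) = GG m o0 o1 v := by
  unfold GG
  rw [TP_map, UU_conj]

theorem GG_ET : GG m o0 o1 v * ET κ m ℂ = ET κ m ℂ * GG m o0 o1 v := TP_ET _

/-- the Hodge structure at the point `v` -/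
theorem fam_big (hq : qr o0 o1 v ≠ 0) : BigHW27 (TP m (QW ℚ o0 o1)) (ET κ m ℚ)
    (fun p => GG m o0 o1 v * P0 m o0 o1 p * GG m o0 o1 v) := by
  refine base_big.conj27 (GG_sq hq) (GG_sq hq) GG_conj ?_ ?_
  · rw [toC_TP, toC_QW]
    unfold GG
    rw [TP_transpose, TP_mul, TP_mul, UU_QW hq]
  · rw [toC_ET, GG_ET, mul_assoc, GG_sq hq, mul_one]

theorem RR_eq (h01 : o0 ≠ o1) (hq : qr o0 o1 v ≠ 0) : RR m o0 o1 (cv v) =
    ((qv o0 o1 (cv v) ^ 2) ^ m * m.factorial) • (GG m o0 o1 v * P0 m o0 o1 1 * GG m o0 o1 v + Complex.I •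
      (GG m o0 o1 v * P0 m o0 o1 2 * GG m o0 o1 v - GG m o0 o1 v * P0 m o0 o1 0 * GG m o0 o1 v)) := by
  have h := qne hq
  have e1 : GG m o0 o1 v * P0 m o0 o1 1 * GG m o0 o1 v + Complex.I •
      (GG m o0 o1 v * P0 m o0 o1 2 * GG m o0 o1 v - GG m o0 o1 v * P0 m o0 o1 0 * GG m o0 o1 v) =
      GG m o0 o1 v * re m o0 o1 * GG m o0 o1 v := by
    rw [re_eq h01, mul_add, add_mul, mul_smul_comm, smul_mul_assoc, mul_sub, sub_mul]
  have e2 : GG m o0 o1 v * re m o0 o1 * GG m o0 o1 v =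
      TP m (UU o0 o1 v * RW ℂ o0 o1 * UU o0 o1 v) * ET κ m ℂ := by
    unfold re
    calc GG m o0 o1 v * (TP m (RW ℂ o0 o1) * ET κ m ℂ) * GG m o0 o1 v =
          GG m o0 o1 v * TP m (RW ℂ o0 o1) * (ET κ m ℂ * GG m o0 o1 v) := by simp only [mul_assoc]
      _ = GG m o0 o1 v * TP m (RW ℂ o0 o1) * GG m o0 o1 v * ET κ m ℂ := by rw [← GG_ET]; simp only [mul_assoc]
      _ = _ := by unfold GG; rw [TP_mul, TP_mul]
  have e3 : UQ o0 o1 (cv v) = qv o0 o1 (cv v) • UU o0 o1 v := by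
    unfold UU
    rw [smul_smul, mul_inv_cancel₀ h, one_smul]
  have e4 : SS κ m ℂ = (m.factorial : ℂ) • ET κ m ℂ := by
    unfold ET
    rw [smul_smul, mul_inv_cancel₀ fac_ne, one_smul]
  have e5 : UQ o0 o1 (cv v) * RW ℂ o0 o1 * UQ o0 o1 (cv v) =
      (qv o0 o1 (cv v) ^ 2) • (UU o0 o1 v * RW ℂ o0 o1 * UU o0 o1 v) := by
    rw [e3, smul_mul_assoc, smul_mul_smul_comm, ← sq]
  rw [e1, e2]
  unfold RR
  rw [e5, e4, TP_smul, smul_mul_smul_comm]

theorem end_big (h01 : o0 ≠ o1) (h2m : 2 * m < Fintype.card κ) {W : Set (κ → ℝ)} (hW : IsOpen W) (hne : W.Nonempty)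
    (hWq : ∀ v ∈ W, qr o0 o1 v ≠ 0) {A : Matrix (Fin m → κ) (Fin m → κ) ℚ} (hA1 : A * ET κ m ℚ = A)
    (hA2 : ET κ m ℚ * A = A)
    (h : ∀ v ∈ W, ∀ p, toC A * (GG m o0 o1 v * P0 m o0 o1 p * GG m o0 o1 v) =
      (GG m o0 o1 v * P0 m o0 o1 p * GG m o0 o1 v) * toC A) : ∃ c : ℚ, A = c • ET κ m ℚ := by
  obtain ⟨v0, h0⟩ := hne
  have h1 : ∀ v ∈ W, toC A * RR m o0 o1 (cv v) = RR m o0 o1 (cv v) * toC A := by
    intro v hv
    rw [RR_eq h01 (hWq v hv), mul_smul_comm, smul_mul_assoc, mul_add, add_mul, mul_smul_comm, smul_mul_assoc, mul_sub,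
      sub_mul, h v hv 1, h v hv 2, h v hv 0]
  have a1 : toC A * ET κ m ℂ = toC A := by rw [← toC_ET, ← toC_mul, hA1]
  have a2 : ET κ m ℂ * toC A = toC A := by rw [← toC_ET, ← toC_mul, hA2]
  have hle : m ≤ Fintype.card κ := by omega
  obtain ⟨f0, hf0⟩ : ∃ f0 : Fin m → κ, Function.Injective f0 := by
    obtain ⟨e⟩ : Nonempty (Fin m ↪ κ) := Function.Embedding.nonempty_of_card_le (by simpa using hle)
    exact ⟨e, e.injective⟩
  have h2 := scalar_of_RR h01 h2m a1 a2 (ext_all (toC A) hW h0 h1) f0 hf0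
  refine ⟨A f0 f0 * m.factorial, toC_inj27 ?_⟩
  rw [toC_smul27, toC_ET, h2]
  have e4 : SS κ m ℂ = (m.factorial : ℂ) • ET κ m ℂ := by
    unfold ET
    rw [smul_smul, mul_inv_cancel₀ fac_ne, one_smul]
  have e5 : toC A f0 f0 = algebraMap ℚ ℂ (A f0 f0) := rfl
  rw [map_mul, map_natCast, e5]
  conv_rhs => rw [← smul_smul, ← e4]

/-! ### the parameter space -/

/-- the parameter space -/
abbrev TT (o0 o1 : κ) : Type _ := {v : κ → ℝ // qr o0 o1 v ≠ 0}

theorem cont_qr (o0 o1 : κ) : Continuous fun v : κ → ℝ => qr o0 o1 v := by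
  unfold qr qv
  fun_prop

theorem isOpen_TT (o0 o1 : κ) : IsOpen {v : κ → ℝ | qr o0 o1 v ≠ 0} := isOpen_ne_fun (cont_qr o0 o1) continuous_const

instance (o0 o1 : κ) : BaireSpace (TT o0 o1) := (isOpen_TT o0 o1).baireSpace

instance (o0 o1 : κ) : Nonempty (TT o0 o1) := by
  refine ⟨⟨fun i => if i = o0 then 1 else 0, ?_⟩⟩
  unfold qr qv
  rw [Finset.sum_eq_single o0]
  · intro h
    have h1 := sg_sq (K := ℝ) (o0 := o0) (o1 := o1) o0
    simp only [if_true, mul_one] at h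
    rw [h, mul_zero] at h1
    exact zero_ne_one h1
  · intro b _ hb
    simp [hb]
  · intro h
    exact absurd (Finset.mem_univ _) h

theorem cont_GG (m : ℕ) (o0 o1 : κ) : Continuous fun v : TT o0 o1 => GG m o0 o1 v.1 := by
  have hcv : Continuous fun v : TT o0 o1 => cv v.1 := by
    unfold cv
    exact continuous_pi fun i => Complex.continuous_ofReal.comp ((continuous_apply i).comp continuous_subtype_val)
  have hz : ∀ i, Continuous fun v : TT o0 o1 => cv v.1 i := fun i => (continuous_apply i).comp hcv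
  have hqv : Continuous fun v : TT o0 o1 => qv o0 o1 (cv v.1) := by
    unfold qv
    exact continuous_finsetSum _ fun b _ => (continuous_const.mul (hz b)).mul (hz b)
  have hq : Continuous fun v : TT o0 o1 => (qv o0 o1 (cv v.1))⁻¹ := hqv.inv₀ fun v => qne v.2
  have h1 : ∀ i j, Continuous fun v : TT o0 o1 => UU o0 o1 v.1 i j := by
    intro i j
    simp only [UU, UQ, Matrix.sub_apply, Matrix.smul_apply, smul_eq_mul, VV, Matrix.of_apply]
    exact hq.mul ((continuous_const.mul (((hz i).mul (hz j)).mul continuous_const)).sub (hqv.mul continuous_const))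
  unfold GG
  refine continuous_matrix fun f g => ?_
  simp only [TP_apply]
  exact continuous_finsetProd _ fun k _ => h1 _ _

/-! ### the difference of the extreme projections -/

/-- the difference of the extreme projections -/
noncomputable def hb (m : ℕ) (o0 o1 : κ) (v : κ → ℝ) : Matrix (Fin m → κ) (Fin m → κ) ℂ :=
  GG m o0 o1 v * P0 m o0 o1 2 * GG m o0 o1 v - GG m o0 o1 v * P0 m o0 o1 0 * GG m o0 o1 v

/-- the element of the Lie algebra -/
noncomputable def hW (o0 o1 : κ) (v : κ → ℝ) : Matrix κ κ ℂ := (-Complex.I) • (UU o0 o1 v * JW ℂ o0 o1 * UU o0 o1 v)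

theorem hb_eq (h01 : o0 ≠ o1) (hq : qr o0 o1 v ≠ 0) : hb m o0 o1 v = rh m (hW o0 o1 v) * ET κ m ℂ := by
  unfold hb hW
  rw [← sub_mul, ← mul_sub, P0_sub h01, rh_smul, ← TP_rh _ _ _ (UU_sq hq)]
  unfold GG
  rw [mul_smul_comm, smul_mul_assoc, smul_mul_assoc]
  congr 1
  calc TP m (UU o0 o1 v) * (rh m (JW ℂ o0 o1) * ET κ m ℂ) * TP m (UU o0 o1 v) =
        TP m (UU o0 o1 v) * rh m (JW ℂ o0 o1) * (ET κ m ℂ * TP m (UU o0 o1 v)) := by simp only [mul_assoc]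
    _ = _ := by rw [← TP_ET]; simp only [mul_assoc]

theorem Fi_smul (c : ℂ) (X : Matrix (Fin m → κ) (Fin m → κ) ℂ) : Fi m (c • X) = c • Fi m X := by
  ext a b
  rw [Fi_apply, Matrix.smul_apply, Fi_apply, smul_mul_assoc, Matrix.trace_smul]

theorem Fi_add (X Y : Matrix (Fin m → κ) (Fin m → κ) ℂ) : Fi m (X + Y) = Fi m X + Fi m Y := by
  ext a b
  rw [Fi_apply, Matrix.add_apply, Fi_apply, Fi_apply, add_mul, Matrix.trace_add]

theorem Fi_hb (h01 : o0 ≠ o1) (hq : qr o0 o1 v ≠ 0) {α : ℂ}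
    (hα : Fi m (rh m (JW ℂ o0 o1) * ET κ m ℂ) = α • JW ℂ o0 o1) : Fi m (hb m o0 o1 v) = α • hW o0 o1 v := by
  have e1 : hb m o0 o1 v = TP m (UU o0 o1 v) * ((-Complex.I) • (rh m (JW ℂ o0 o1) * ET κ m ℂ)) *
      TP m (UU o0 o1 v) := by
    unfold hb GG
    rw [← sub_mul, ← mul_sub, P0_sub h01]
  rw [e1, Fi_conj _ (UU_sq hq), Fi_smul, hα]
  unfold hW
  rw [mul_smul_comm, mul_smul_comm, smul_mul_assoc, smul_mul_assoc, smul_comm]

theorem le_choose {M k : ℕ} (hk : 1 ≤ k) (hM : k < M) : M ≤ M.choose k := by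
  induction M with
  | zero => omega
  | succ M ih =>
    obtain ⟨k, rfl⟩ := Nat.exists_eq_add_of_le' hk
    rw [Nat.choose_succ_succ']
    rcases (show k + 1 = M ∨ k + 1 < M by omega) with h | h
    · subst h
      rw [Nat.choose_self, Nat.choose_succ_self_right]
    · have h1 := ih h
      have h2 : 0 < M.choose k := Nat.choose_pos (by omega)
      omega

/-! ### the final statement -/

open Module in
/-- Clause 4, `i ≥ 1`. -/
theorem sharp_wedge (M i : ℕ) (hi : 1 ≤ i) (hM : 2 * i + 3 ≤ M) : ∃ (n : Type) (_ : Fintype n) (_ : DecidableEq n)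
    (Q : Matrix n n ℚ) (P : ℤ → Matrix n n ℂ), IsHW 2 Q {0, 1, 2} P ∧
      (∀ A : Matrix n n ℚ, (∀ p, toC A * P p = P p * toC A) → ∃ c : ℚ, A = c • (1 : Matrix n n ℚ)) ∧
      (P 2).rank = M.choose (i + 1) ∧ (P 1).rank = M.choose (i + 2) + M.choose i ∧ (P 0).rank = M.choose (i + 1) ∧
      ∃ g : GL n ℂ, IsGQ 2 Q g ∧ g ∉ MT {0, 1, 2} P := by
  classical
  obtain ⟨o0, ho0⟩ : ∃ o0 : Fin (M + 2), o0 = 0 := ⟨0, rfl⟩
  obtain ⟨o1, ho1⟩ : ∃ o1 : Fin (M + 2), o1 = 1 := ⟨1, rfl⟩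
  have h01 : o0 ≠ o1 := by rw [ho0, ho1]; exact Fin.zero_ne_one
  have hcard : Fintype.card (Fin (M + 2)) = M + 2 := Fintype.card_fin _
  have h2m : 2 * (i + 2) < Fintype.card (Fin (M + 2)) := by rw [hcard]; omega
  obtain ⟨B, C, hBC, hCB⟩ := SH94.exists_fact (ET_sq (κ := Fin (M + 2)) (m := i + 2) (K := ℚ))
  obtain ⟨e, he⟩ : ∃ e : Matrix (Fin (i + 2) → Fin (M + 2)) (Fin (i + 2) → Fin (M + 2)) ℂ,
    e = ET (Fin (M + 2)) (i + 2) ℂ := ⟨_, rfl⟩
  have b1 : rcC B * rcC C = 1 := by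
    rw [← rcC_mul, hBC]
    unfold rcC
    rw [Matrix.map_one _ (map_zero _) (map_one _)]
  have b2 : rcC C * rcC B = toC (ET (Fin (M + 2)) (i + 2) ℚ) := by
    rw [← rcC_mul, hCB]
    rfl
  have b3 : B * ET (Fin (M + 2)) (i + 2) ℚ = B := by
    have h1 : B * (C * B) = B * ET (Fin (M + 2)) (i + 2) ℚ := congrArg (B * ·) hCB
    rw [← h1, ← Matrix.mul_assoc, hBC, Matrix.one_mul]
  have b4 : ET (Fin (M + 2)) (i + 2) ℚ * C = C := by
    have h1 : (C * B) * C = ET (Fin (M + 2)) (i + 2) ℚ * C := congrArg (· * C) hCB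
    rw [← h1, Matrix.mul_assoc, hBC, Matrix.mul_one]
  have b2' : rcC C * rcC B = ET (Fin (M + 2)) (i + 2) ℂ := by rw [b2, toC_ET]
  have b3' : rcC B * ET (Fin (M + 2)) (i + 2) ℂ = rcC B := by
    rw [← b2', ← Matrix.mul_assoc, b1, Matrix.one_mul]
  have b4' : ET (Fin (M + 2)) (i + 2) ℂ * rcC C = rcC C := by
    rw [← b2', Matrix.mul_assoc, b1, Matrix.mul_one]
  obtain ⟨z, hz⟩ := exists_generic27 (T := TT o0 o1)
    (fun t p => rcC B * (GG (i + 2) o0 o1 t.1 * P0 (i + 2) o0 o1 p * GG (i + 2) o0 o1 t.1) * rcC C)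
    (fun p => ((continuous_const.matrix_mul (((cont_GG (i + 2) o0 o1).matrix_mul continuous_const).matrix_mul
      (cont_GG (i + 2) o0 o1))).matrix_mul continuous_const)) (by
    intro U hU hne A hA
    have hW : IsOpen (Subtype.val '' U : Set (Fin (M + 2) → ℝ)) := (isOpen_TT o0 o1).isOpenMap_subtype_val U hU
    obtain ⟨c, hc⟩ := end_big h01 h2m (A := C * A * B) hW (hne.image _) (by
      rintro _ ⟨t, _, rfl⟩
      exact t.2) (by
      rw [Matrix.mul_assoc, b3]) (by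
      rw [← Matrix.mul_assoc, ← Matrix.mul_assoc, b4]) (by
      rintro _ ⟨t, ht, rfl⟩ p
      have H := fam_big (m := i + 2) (o0 := o0) (o1 := o1) t.2
      have h1 := hA t ht p
      have e1 : toC (C * A * B) = rcC C * toC A * rcC B := by
        change rcC (C * A * B) = _
        rw [rcC_mul, rcC_mul]
        rfl
      have h2 : GG (i + 2) o0 o1 t.1 * P0 (i + 2) o0 o1 p * GG (i + 2) o0 o1 t.1 =
          rcC C * (rcC B * (GG (i + 2) o0 o1 t.1 * P0 (i + 2) o0 o1 p * GG (i + 2) o0 o1 t.1) * rcC C) * rcC B := by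
        calc GG (i + 2) o0 o1 t.1 * P0 (i + 2) o0 o1 p * GG (i + 2) o0 o1 t.1 =
              toC (ET (Fin (M + 2)) (i + 2) ℚ) * (GG (i + 2) o0 o1 t.1 * P0 (i + 2) o0 o1 p * GG (i + 2) o0 o1 t.1) *
                toC (ET (Fin (M + 2)) (i + 2) ℚ) := by
              rw [H.e_mul p, H.mul_e p]
          _ = _ := by rw [← b2]; simp only [Matrix.mul_assoc]
      obtain ⟨Ps, hPs⟩ : ∃ Ps, rcC B * (GG (i + 2) o0 o1 t.1 * P0 (i + 2) o0 o1 p * GG (i + 2) o0 o1 t.1) * rcC C =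
        Ps := ⟨_, rfl⟩
      rw [hPs] at h1 h2
      rw [h2, e1]
      calc rcC C * toC A * rcC B * (rcC C * Ps * rcC B) = rcC C * (toC A * (rcC B * rcC C) * Ps) * rcC B := by
            simp only [Matrix.mul_assoc]
        _ = rcC C * (Ps * (rcC B * rcC C) * toC A) * rcC B := by
            rw [b1, Matrix.mul_one, Matrix.mul_one, h1]
        _ = _ := by simp only [Matrix.mul_assoc])
    refine ⟨c, ?_⟩
    calc A = (B * C) * A * (B * C) := by rw [hBC, Matrix.one_mul, Matrix.mul_one]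
      _ = B * (C * A * B) * C := by simp only [Matrix.mul_assoc]
      _ = c • (B * ET (Fin (M + 2)) (i + 2) ℚ * C) := by rw [hc, Matrix.mul_smul, Matrix.smul_mul]
      _ = c • 1 := by rw [b3, hBC])
  have hq := z.2
  have HB := fam_big (m := i + 2) (o0 := o0) (o1 := o1) hq
  have H := HB.small hBC hCB
  have idm : ∀ p, (rcC B * (GG (i + 2) o0 o1 z.1 * P0 (i + 2) o0 o1 p * GG (i + 2) o0 o1 z.1) * rcC C) *
      (rcC B * (GG (i + 2) o0 o1 z.1 * P0 (i + 2) o0 o1 p * GG (i + 2) o0 o1 z.1) * rcC C) =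
      rcC B * (GG (i + 2) o0 o1 z.1 * P0 (i + 2) o0 o1 p * GG (i + 2) o0 o1 z.1) * rcC C := by
    intro p
    have := H.mul p p
    rwa [if_pos rfl] at this
  have tr : ∀ p, (rcC B * (GG (i + 2) o0 o1 z.1 * P0 (i + 2) o0 o1 p * GG (i + 2) o0 o1 z.1) * rcC C).trace =
      (P0 (i + 2) o0 o1 p).trace := by
    intro p
    rw [Matrix.trace_mul_comm, ← Matrix.mul_assoc, b2, HB.e_mul p, Matrix.trace_mul_comm, ← Matrix.mul_assoc,
      GG_sq hq, Matrix.one_mul]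
  have r2 : (rcC B * (GG (i + 2) o0 o1 z.1 * P0 (i + 2) o0 o1 2 * GG (i + 2) o0 o1 z.1) * rcC C).rank =
      M.choose (i + 1) := by
    have h1 := trace_eq_rank (idm 2)
    rw [tr, trace_two h01 hcard] at h1
    exact_mod_cast h1.symm
  have r0 : (rcC B * (GG (i + 2) o0 o1 z.1 * P0 (i + 2) o0 o1 0 * GG (i + 2) o0 o1 z.1) * rcC C).rank =
      M.choose (i + 1) := by
    have h1 := trace_eq_rank (idm 0)
    rw [tr, trace_zero' h01 hcard] at h1
    exact_mod_cast h1.symm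
  have r1 : (rcC B * (GG (i + 2) o0 o1 z.1 * P0 (i + 2) o0 o1 1 * GG (i + 2) o0 o1 z.1) * rcC C).rank =
      M.choose (i + 2) + M.choose i := by
    have h1 := trace_eq_rank (idm 1)
    rw [tr, trace_one' h01 hcard] at h1
    exact_mod_cast h1.symm
  obtain ⟨α, hα⟩ := Fi_JW (m := i + 2) h01
  have hα0 : α ≠ 0 := Fi_JW_ne h01 hα (by
    rw [trace_two h01 hcard, trace_zero' h01 hcard]
    have h1 : 0 < M.choose (i + 1) := Nat.choose_pos (by omega)
    have h2 : (M.choose (i + 1) : ℂ) ≠ 0 := by exact_mod_cast h1.ne'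
    rw [← two_mul]
    exact mul_ne_zero two_ne_zero h2)
  refine ⟨Fin (ET (Fin (M + 2)) (i + 2) ℚ).rank, inferInstance, inferInstance, Cᵀ * TP (i + 2) (QW ℚ o0 o1) * C, _, H,
    hz, r2, r1, r0, ?_⟩
  -- the linear map
  let L2 : Matrix (Fin (M + 2)) (Fin (M + 2)) ℂ →ₗ[ℂ]
      Matrix (Fin (ET (Fin (M + 2)) (i + 2) ℚ).rank) (Fin (ET (Fin (M + 2)) (i + 2) ℚ).rank) ℂ :=
    { toFun := fun Y => rcC B * rh (i + 2) Y * rcC C
      map_add' := fun X Y => by rw [rh_add, Matrix.mul_add, Matrix.add_mul]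
      map_smul' := fun c X => by rw [rh_smul, Matrix.mul_smul, Matrix.smul_mul, RingHom.id_apply] }
  let F : Matrix (Fin (ET (Fin (M + 2)) (i + 2) ℚ).rank) (Fin (ET (Fin (M + 2)) (i + 2) ℚ).rank) ℂ →ₗ[ℂ]
      Matrix (Fin (ET (Fin (M + 2)) (i + 2) ℚ).rank) (Fin (ET (Fin (M + 2)) (i + 2) ℚ).rank) ℂ :=
    { toFun := fun X => rcC B * rh (i + 2) (Fi (i + 2) (rcC C * X * rcC B)) * rcC C
      map_add' := fun X Y => by
        rw [Matrix.mul_add, Matrix.add_mul, Fi_add, rh_add, Matrix.mul_add, Matrix.add_mul]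
      map_smul' := fun c X => by
        rw [Matrix.mul_smul, Matrix.smul_mul, Fi_smul, rh_smul, Matrix.mul_smul, Matrix.smul_mul, RingHom.id_apply] }
  have hFdef : ∀ X, F X = rcC B * rh (i + 2) (Fi (i + 2) (rcC C * X * rcC B)) * rcC C := fun X => rfl
  have hle : LinearMap.range F ≤ LinearMap.range L2 := by
    rintro _ ⟨X, rfl⟩
    exact ⟨Fi (i + 2) (rcC C * X * rcC B), rfl⟩
  have hfr : finrank ℂ (LinearMap.range F) < 2 * M.choose (i + 1) * (M.choose (i + 2) + M.choose i) := by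
    have h1 := Submodule.finrank_mono hle
    have h2 := LinearMap.finrank_range_le L2
    have h3 : finrank ℂ (Matrix (Fin (M + 2)) (Fin (M + 2)) ℂ) = (M + 2) ^ 2 := by
      rw [finrank_matrix, Fintype.card_fin, finrank_self]
      ring
    rw [h3] at h2
    refine lt_of_le_of_lt (h1.trans h2) ?_
    have c1 : M ≤ M.choose (i + 1) := le_choose (by omega) (by omega)
    have c2 : M ≤ M.choose (i + 2) := le_choose (by omega) (by omega)
    have c3 : M ≤ M.choose i := le_choose (by omega) (by omega)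
    have h5 : 5 ≤ M := by omega
    calc (M + 2) ^ 2 < 2 * M * (M + M) := by nlinarith
      _ ≤ _ := Nat.mul_le_mul (Nat.mul_le_mul_left 2 c1) (add_le_add c2 c3)
  have hh : rcC B * (GG (i + 2) o0 o1 z.1 * P0 (i + 2) o0 o1 2 * GG (i + 2) o0 o1 z.1) * rcC C -
      rcC B * (GG (i + 2) o0 o1 z.1 * P0 (i + 2) o0 o1 0 * GG (i + 2) o0 o1 z.1) * rcC C =
      rcC B * hb (i + 2) o0 o1 z.1 * rcC C := by
    unfold hb
    rw [Matrix.mul_sub, Matrix.sub_mul]
  have ehb : ET (Fin (M + 2)) (i + 2) ℂ * hb (i + 2) o0 o1 z.1 = hb (i + 2) o0 o1 z.1 := by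
    unfold hb
    rw [← toC_ET, mul_sub, HB.e_mul 2, HB.e_mul 0]
  have hbe : hb (i + 2) o0 o1 z.1 * ET (Fin (M + 2)) (i + 2) ℂ = hb (i + 2) o0 o1 z.1 := by
    unfold hb
    rw [← toC_ET, sub_mul, HB.mul_e 2, HB.mul_e 0]
  have hbW := hb_eq (m := i + 2) h01 hq
  obtain ⟨g, hg1, hg2, hg3⟩ := SH94.exists_not_mem H F (fun A => by
    refine ⟨B * rh (i + 2) (Fi (i + 2) (C * A * B)) * C, ?_⟩
    rw [hFdef]
    change _ = rcC (B * rh (i + 2) (Fi (i + 2) (C * A * B)) * C)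
    rw [rcC_mul, rcC_mul]
    have e1 : rcC C * toC A * rcC B = (C * A * B).map (algebraMap ℚ ℂ) := by
      change _ = rcC (C * A * B)
      rw [rcC_mul, rcC_mul]
      rfl
    have e2 : rcC (rh (i + 2) (Fi (i + 2) (C * A * B))) = rh (i + 2) (Fi (i + 2) ((C * A * B).map (algebraMap ℚ ℂ))) := by
      rw [← Fi_map, ← rh_map]
      rfl
    rw [e1, e2]) (fun X => by
    simp only [hFdef]
    rw [hh]
    obtain ⟨Y, hY⟩ : ∃ Y, Y = rcC C * X * rcC B := ⟨_, rfl⟩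
    have eY : ET (Fin (M + 2)) (i + 2) ℂ * Y = Y := by
      rw [hY, ← Matrix.mul_assoc, ← Matrix.mul_assoc, b4']
    have Ye : Y * ET (Fin (M + 2)) (i + 2) ℂ = Y := by
      rw [hY, Matrix.mul_assoc, b3']
    have e1 : rcC C * (rcC B * hb (i + 2) o0 o1 z.1 * rcC C * X - X * (rcC B * hb (i + 2) o0 o1 z.1 * rcC C)) * rcC B =
        rh (i + 2) (hW o0 o1 z.1) * Y - Y * rh (i + 2) (hW o0 o1 z.1) := by
      rw [Matrix.mul_sub, Matrix.sub_mul]
      congr 1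
      · calc rcC C * (rcC B * hb (i + 2) o0 o1 z.1 * rcC C * X) * rcC B =
              ((rcC C * rcC B) * hb (i + 2) o0 o1 z.1) * (rcC C * X * rcC B) := by
              simp only [Matrix.mul_assoc]
          _ = _ := by rw [b2', ehb, hbW, ← hY, Matrix.mul_assoc, eY]
      · calc rcC C * (X * (rcC B * hb (i + 2) o0 o1 z.1 * rcC C)) * rcC B =
              (rcC C * X * rcC B) * (hb (i + 2) o0 o1 z.1 * (rcC C * rcC B)) := by simp only [Matrix.mul_assoc]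
          _ = _ := by rw [b2', hbe, hbW, ← hY, rh_ET, ← Matrix.mul_assoc, Ye]
    rw [e1, Fi_br, ← rh_br, ← hY]
    obtain ⟨Z, hZ⟩ : ∃ Z, Z = rh (i + 2) (Fi (i + 2) Y) := ⟨_, rfl⟩
    rw [← hZ, Matrix.mul_sub, Matrix.sub_mul]
    congr 1
    · calc rcC B * (rh (i + 2) (hW o0 o1 z.1) * Z) * rcC C =
            (rcC B * ET (Fin (M + 2)) (i + 2) ℂ) * rh (i + 2) (hW o0 o1 z.1) * Z * rcC C := by
              rw [b3']; simp only [Matrix.mul_assoc]
        _ = rcC B * hb (i + 2) o0 o1 z.1 * Z * rcC C := by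
              rw [hbW, rh_ET]; simp only [Matrix.mul_assoc]
        _ = rcC B * (hb (i + 2) o0 o1 z.1 * (rcC C * rcC B)) * Z * rcC C := by rw [b2', hbe]
        _ = _ := by simp only [Matrix.mul_assoc]
    · calc rcC B * (Z * rh (i + 2) (hW o0 o1 z.1)) * rcC C =
            rcC B * Z * rh (i + 2) (hW o0 o1 z.1) * (ET (Fin (M + 2)) (i + 2) ℂ * rcC C) := by
              rw [b4']; simp only [Matrix.mul_assoc]
        _ = rcC B * Z * hb (i + 2) o0 o1 z.1 * rcC C := by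
              rw [hbW]; simp only [Matrix.mul_assoc]
        _ = rcC B * Z * ((rcC C * rcC B) * hb (i + 2) o0 o1 z.1) * rcC C := by rw [b2', ehb]
        _ = _ := by simp only [Matrix.mul_assoc]) hα0 (by
    simp only [hFdef]
    rw [hh]
    have e1 : rcC C * (rcC B * hb (i + 2) o0 o1 z.1 * rcC C) * rcC B = hb (i + 2) o0 o1 z.1 := by
      calc rcC C * (rcC B * hb (i + 2) o0 o1 z.1 * rcC C) * rcC B =
            (rcC C * rcC B) * hb (i + 2) o0 o1 z.1 * (rcC C * rcC B) := by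
            simp only [Matrix.mul_assoc]
        _ = _ := by rw [b2', ehb, hbe]
    rw [e1, Fi_hb h01 hq hα, rh_smul, Matrix.mul_smul, Matrix.smul_mul]
    congr 1
    calc rcC B * rh (i + 2) (hW o0 o1 z.1) * rcC C =
          rcC B * rh (i + 2) (hW o0 o1 z.1) * (ET (Fin (M + 2)) (i + 2) ℂ * rcC C) := by rw [b4']
      _ = _ := by rw [hbW]; simp only [Matrix.mul_assoc]) (by
    rw [r2, r1]
    exact hfr)
  refine ⟨g, ⟨1, fun h => absurd h (by norm_num), ?_, fun _ => ?_⟩, hg3⟩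
  · rw [one_pow, one_smul]
    exact hg1
  · rw [one_pow]
    exact hg2

end MH.Her27.S4

namespace MH

/-- CONSTRUCTION S4 (clause 4 of the list): exterior powers of structures of K3 type. -/
theorem sharp_exterior (M i : ℕ) (h3 : 3 ≤ M) (hM : 2 * i + 3 ≤ M) :
    ∃ (n : Type) (_ : Fintype n) (_ : DecidableEq n) (Q : Matrix n n ℚ) (P : ℤ → Matrix n n ℂ), IsHW 2 Q {0, 1, 2} P ∧
      (∀ A : Matrix n n ℚ, (∀ p, toC A * P p = P p * toC A) → ∃ c : ℚ, A = c • (1 : Matrix n n ℚ)) ∧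
      (P 2).rank = M.choose (i + 1) ∧ (P 1).rank = M.choose (i + 2) + M.choose i ∧
        ∃ g : GL n ℂ, IsGQ 2 Q g ∧ g ∉ MT {0, 1, 2} P := by
  rcases Nat.eq_zero_or_pos i with rfl | hi
  · have h4 : 2 * (M.choose 2 + 1) + M = M ^ 2 + 2 := by
      obtain ⟨k, rfl⟩ := Nat.exists_eq_add_of_le h3
      have h5 := Nat.choose_two_right (3 + k)
      have h6 : 2 ∣ (3 + k) * (3 + k - 1) := by
        have := Nat.even_mul_pred_self (3 + k)
        exact this.two_dvd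
      obtain ⟨c, hc⟩ := h6
      rw [hc, Nat.mul_div_cancel_left _ (by norm_num)] at h5
      rw [h5]
      have h7 : 3 + k - 1 = 2 + k := by omega
      rw [h7] at hc
      nlinarith
    obtain ⟨n, i1, i2, Q, P, H, hEnd, r2, r1, -, -, hg⟩ := sharp_K3_GQ24 M (M.choose 2 + 1) h3 h4
    refine ⟨n, i1, i2, Q, P, H, hEnd, ?_, ?_, hg⟩
    · rw [r2, Nat.choose_one_right]
    · rw [r1, Nat.choose_zero_right]
  · obtain ⟨n, i1, i2, Q, P, H, hEnd, r2, r1, -, hg⟩ := Her27.S4.sharp_wedge M i hi hM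
    exact ⟨n, i1, i2, Q, P, H, hEnd, r2, r1, hg⟩

end MH
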