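import Pool.Agent.Helper27.S4.Base

/-!
Project LT (MP_b8862a_ag), sharpness: exterior powers of structures of K3 type. The Hodge structure at the base point.
-/

set_option linter.unusedSectionVars false

open Matrix

namespace MH.Her27.S4

variable {κ : Type*} [Fintype κ] [DecidableEq κ] {m : ℕ} {o0 o1 : κ}

/-- the four elements -/
noncomputable def re (m : ℕ) (o0 o1 : κ) : Matrix (Fin m → κ) (Fin m → κ) ℂ := TP m (RW ℂ o0 o1) * ET κ m ℂ
noncomputable def te (m : ℕ) (o0 o1 : κ) : Matrix (Fin m → κ) (Fin m → κ) ℂ := TP m (RT ℂ o0 o1) * ET κ m ℂ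
noncomputable def qe (m : ℕ) (o0 o1 : κ) : Matrix (Fin m → κ) (Fin m → κ) ℂ := TP m (QW ℂ o0 o1) * ET κ m ℂ

theorem TE_mul (A B : Matrix κ κ ℂ) : TP m A * ET κ m ℂ * (TP m B * ET κ m ℂ) = TP m (A * B) * ET κ m ℂ := by
  calc TP m A * ET κ m ℂ * (TP m B * ET κ m ℂ) = TP m A * (ET κ m ℂ * TP m B) * ET κ m ℂ := by simp only [mul_assoc]
    _ = TP m A * TP m B * (ET κ m ℂ * ET κ m ℂ) := by rw [← TP_ET]; simp only [mul_assoc]
    _ = _ := by rw [ET_sq, TP_mul]

theorem TE_ET (A : Matrix κ κ ℂ) : TP m A * ET κ m ℂ * ET κ m ℂ = TP m A * ET κ m ℂ := by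
  rw [mul_assoc, ET_sq]

theorem ET_TE (A : Matrix κ κ ℂ) : ET κ m ℂ * (TP m A * ET κ m ℂ) = TP m A * ET κ m ℂ := by
  rw [← mul_assoc, ← TP_ET, mul_assoc, ET_sq]

/-- the odd part -/
noncomputable def uu (m : ℕ) (o0 o1 : κ) : Matrix (Fin m → κ) (Fin m → κ) ℂ := ET κ m ℂ - qe m o0 o1
/-- the derivation -/
noncomputable def ww (m : ℕ) (o0 o1 : κ) : Matrix (Fin m → κ) (Fin m → κ) ℂ := re m o0 o1 - te m o0 o1
/-- the even part -/
noncomputable def xx (m : ℕ) (o0 o1 : κ) : Matrix (Fin m → κ) (Fin m → κ) ℂ := ET κ m ℂ + qe m o0 o1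

theorem q_e : qe m o0 o1 * ET κ m ℂ = qe m o0 o1 := TE_ET _
theorem e_q : ET κ m ℂ * qe m o0 o1 = qe m o0 o1 := ET_TE _
theorem r_e : re m o0 o1 * ET κ m ℂ = re m o0 o1 := TE_ET _
theorem e_r : ET κ m ℂ * re m o0 o1 = re m o0 o1 := ET_TE _
theorem t_e : te m o0 o1 * ET κ m ℂ = te m o0 o1 := TE_ET _
theorem e_t : ET κ m ℂ * te m o0 o1 = te m o0 o1 := ET_TE _
theorem q_q : qe m o0 o1 * qe m o0 o1 = ET κ m ℂ := by
  unfold qe; rw [TE_mul, QW_QW, TP_one, one_mul]
theorem r_r : re m o0 o1 * re m o0 o1 = qe m o0 o1 := by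
  unfold re; rw [TE_mul, RW_RW]; rfl
theorem t_t : te m o0 o1 * te m o0 o1 = qe m o0 o1 := by
  unfold te; rw [TE_mul, RT_RT]; rfl
theorem r_t : re m o0 o1 * te m o0 o1 = ET κ m ℂ := by
  unfold re te; rw [TE_mul, RW_RT, TP_one, one_mul]
theorem t_r : te m o0 o1 * re m o0 o1 = ET κ m ℂ := by
  unfold re te; rw [TE_mul, RT_RW, TP_one, one_mul]
theorem q_r : qe m o0 o1 * re m o0 o1 = te m o0 o1 := by
  unfold re qe; rw [TE_mul, QW_RW]; rfl
theorem r_q : re m o0 o1 * qe m o0 o1 = te m o0 o1 := by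
  unfold re qe; rw [TE_mul, RW_QW]; rfl
theorem q_t : qe m o0 o1 * te m o0 o1 = re m o0 o1 := by
  unfold te qe; rw [TE_mul, QW_RT]; rfl
theorem t_q : te m o0 o1 * qe m o0 o1 = re m o0 o1 := by
  unfold te qe; rw [TE_mul, RT_QW]; rfl

theorem u_u : uu m o0 o1 * uu m o0 o1 = (2 : ℂ) • uu m o0 o1 := by
  unfold uu
  rw [sub_mul, mul_sub, mul_sub, ET_sq, q_e, e_q, q_q, two_smul]
  abel
theorem w_w : ww m o0 o1 * ww m o0 o1 = -((2 : ℂ) • uu m o0 o1) := by
  unfold uu ww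
  rw [sub_mul, mul_sub, mul_sub, r_r, r_t, t_r, t_t, two_smul]
  abel
theorem u_w : uu m o0 o1 * ww m o0 o1 = (2 : ℂ) • ww m o0 o1 := by
  unfold uu ww
  rw [sub_mul, mul_sub, mul_sub, e_r, e_t, q_r, q_t, two_smul]
  abel
theorem w_u : ww m o0 o1 * uu m o0 o1 = (2 : ℂ) • ww m o0 o1 := by
  unfold uu ww
  rw [sub_mul, mul_sub, mul_sub, r_e, t_e, r_q, t_q, two_smul]
  abel
theorem x_x : xx m o0 o1 * xx m o0 o1 = (2 : ℂ) • xx m o0 o1 := by
  unfold xx
  rw [add_mul, mul_add, mul_add, ET_sq, q_e, e_q, q_q, two_smul]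
  abel
theorem x_u : xx m o0 o1 * uu m o0 o1 = 0 := by
  unfold xx uu
  rw [add_mul, mul_sub, mul_sub, ET_sq, q_e, e_q, q_q]
  abel
theorem u_x : uu m o0 o1 * xx m o0 o1 = 0 := by
  unfold xx uu
  rw [sub_mul, mul_add, mul_add, ET_sq, q_e, e_q, q_q]
  abel
theorem x_w : xx m o0 o1 * ww m o0 o1 = 0 := by
  unfold xx ww
  rw [add_mul, mul_sub, mul_sub, e_r, e_t, q_r, q_t]
  abel
theorem w_x : ww m o0 o1 * xx m o0 o1 = 0 := by
  unfold xx ww
  rw [sub_mul, mul_add, mul_add, r_e, t_e, r_q, t_q]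
  abel

/-- the projections at the base point -/
noncomputable def P0 (m : ℕ) (o0 o1 : κ) (p : ℤ) : Matrix (Fin m → κ) (Fin m → κ) ℂ :=
  if p = 2 then (1 / 4 : ℂ) • (uu m o0 o1 - Complex.I • ww m o0 o1)
  else if p = 0 then (1 / 4 : ℂ) • (uu m o0 o1 + Complex.I • ww m o0 o1)
  else if p = 1 then (1 / 2 : ℂ) • xx m o0 o1 else 0

theorem P0_two : P0 m o0 o1 2 = (1 / 4 : ℂ) • (uu m o0 o1 - Complex.I • ww m o0 o1) := if_pos rfl

theorem P0_zero : P0 m o0 o1 0 = (1 / 4 : ℂ) • (uu m o0 o1 + Complex.I • ww m o0 o1) := by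
  unfold P0
  rw [if_neg (by norm_num), if_pos rfl]

theorem P0_one : P0 m o0 o1 1 = (1 / 2 : ℂ) • xx m o0 o1 := by
  unfold P0
  rw [if_neg (by norm_num), if_neg (by norm_num), if_pos rfl]

theorem P0_other {p : ℤ} (h0 : p ≠ 0) (h1 : p ≠ 1) (h2 : p ≠ 2) : P0 m o0 o1 p = 0 := by
  unfold P0
  rw [if_neg h2, if_neg h0, if_neg h1]

theorem II : Complex.I * Complex.I = -1 := Complex.I_mul_I

theorem P0_mul (p q : ℤ) : P0 m o0 o1 p * P0 m o0 o1 q = if p = q then P0 m o0 o1 p else 0 := by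
  have m22 : P0 m o0 o1 2 * P0 m o0 o1 2 = P0 m o0 o1 2 := by
    rw [P0_two, smul_mul_smul_comm, sub_mul, mul_sub, mul_sub, smul_mul_smul_comm, mul_smul_comm, smul_mul_assoc, u_u,
      u_w, w_u, w_w, II]
    module
  have m00 : P0 m o0 o1 0 * P0 m o0 o1 0 = P0 m o0 o1 0 := by
    rw [P0_zero, smul_mul_smul_comm, add_mul, mul_add, mul_add, smul_mul_smul_comm, mul_smul_comm, smul_mul_assoc, u_u,
      u_w, w_u, w_w, II]
    module
  have m11 : P0 m o0 o1 1 * P0 m o0 o1 1 = P0 m o0 o1 1 := by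
    rw [P0_one, smul_mul_smul_comm, x_x]
    module
  have m20 : P0 m o0 o1 2 * P0 m o0 o1 0 = 0 := by
    rw [P0_two, P0_zero, smul_mul_smul_comm, sub_mul, mul_add, mul_add, smul_mul_smul_comm, mul_smul_comm,
      smul_mul_assoc, u_u, u_w, w_u, w_w, II]
    module
  have m02 : P0 m o0 o1 0 * P0 m o0 o1 2 = 0 := by
    rw [P0_two, P0_zero, smul_mul_smul_comm, add_mul, mul_sub, mul_sub, smul_mul_smul_comm, mul_smul_comm,
      smul_mul_assoc, u_u, u_w, w_u, w_w, II]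
    module
  have m21 : P0 m o0 o1 2 * P0 m o0 o1 1 = 0 := by
    rw [P0_two, P0_one, smul_mul_smul_comm, sub_mul, smul_mul_assoc, u_x, w_x]
    simp
  have m01 : P0 m o0 o1 0 * P0 m o0 o1 1 = 0 := by
    rw [P0_zero, P0_one, smul_mul_smul_comm, add_mul, smul_mul_assoc, u_x, w_x]
    simp
  have m12 : P0 m o0 o1 1 * P0 m o0 o1 2 = 0 := by
    rw [P0_two, P0_one, smul_mul_smul_comm, mul_sub, mul_smul_comm, x_u, x_w]
    simp
  have m10 : P0 m o0 o1 1 * P0 m o0 o1 0 = 0 := by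
    rw [P0_zero, P0_one, smul_mul_smul_comm, mul_add, mul_smul_comm, x_u, x_w]
    simp
  by_cases p0 : p = 0
  · subst p0
    by_cases q0 : q = 0
    · subst q0; rw [if_pos rfl, m00]
    · rw [if_neg (Ne.symm q0)]
      by_cases q1 : q = 1
      · subst q1; exact m01
      · by_cases q2 : q = 2
        · subst q2; exact m02
        · rw [P0_other q0 q1 q2, mul_zero]
  · by_cases p1 : p = 1
    · subst p1
      by_cases q1 : q = 1
      · subst q1; rw [if_pos rfl, m11]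
      · rw [if_neg (Ne.symm q1)]
        by_cases q0 : q = 0
        · subst q0; exact m10
        · by_cases q2 : q = 2
          · subst q2; exact m12
          · rw [P0_other q0 q1 q2, mul_zero]
    · by_cases p2 : p = 2
      · subst p2
        by_cases q2 : q = 2
        · subst q2; rw [if_pos rfl, m22]
        · rw [if_neg (Ne.symm q2)]
          by_cases q0 : q = 0
          · subst q0; exact m20
          · by_cases q1 : q = 1
            · subst q1; exact m21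
            · rw [P0_other q0 q1 q2, mul_zero]
      · rw [P0_other p0 p1 p2, zero_mul]
        split_ifs <;> rfl

theorem toC_ET : toC (ET κ m ℚ) = ET κ m ℂ := ET_map (algebraMap ℚ ℂ)

theorem toC_TP (A : Matrix κ κ ℚ) : toC (TP m A) = TP m (toC A) := TP_map (algebraMap ℚ ℂ) A

theorem toC_QW : toC (QW ℚ o0 o1) = QW ℂ o0 o1 := QW_map (algebraMap ℚ ℂ) o0 o1

theorem ET_conj : (ET κ m ℂ).map (starRingEnd ℂ) = ET κ m ℂ := ET_map _

theorem TE_conj {A : Matrix κ κ ℂ} (hA : A.map (starRingEnd ℂ) = A) :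
    (TP m A * ET κ m ℂ).map (starRingEnd ℂ) = TP m A * ET κ m ℂ := by
  rw [Matrix.map_mul, ET_conj, TP_map, hA]

theorem q_conj : (qe m o0 o1).map (starRingEnd ℂ) = qe m o0 o1 := TE_conj (QW_map _ _ _)
theorem r_conj : (re m o0 o1).map (starRingEnd ℂ) = re m o0 o1 := TE_conj (RW_map _ _ _)
theorem t_conj : (te m o0 o1).map (starRingEnd ℂ) = te m o0 o1 := TE_conj (RT_map _ _ _)

theorem map_sub' {n : Type*} (A B : Matrix n n ℂ) :
    (A - B).map (starRingEnd ℂ) = A.map (starRingEnd ℂ) - B.map (starRingEnd ℂ) := by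
  ext i j; simp

theorem map_add' {n : Type*} (A B : Matrix n n ℂ) :
    (A + B).map (starRingEnd ℂ) = A.map (starRingEnd ℂ) + B.map (starRingEnd ℂ) := by
  ext i j; simp

theorem map_smul' {n : Type*} (c : ℂ) (A : Matrix n n ℂ) :
    (c • A).map (starRingEnd ℂ) = (starRingEnd ℂ c) • A.map (starRingEnd ℂ) := by
  ext i j; simp

theorem u_conj : (uu m o0 o1).map (starRingEnd ℂ) = uu m o0 o1 := by
  unfold uu; rw [map_sub', ET_conj, q_conj]
theorem x_conj : (xx m o0 o1).map (starRingEnd ℂ) = xx m o0 o1 := by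
  unfold xx; rw [map_add', ET_conj, q_conj]
theorem w_conj : (ww m o0 o1).map (starRingEnd ℂ) = ww m o0 o1 := by
  unfold ww; rw [map_sub', r_conj, t_conj]

theorem TE_transpose (A : Matrix κ κ ℂ) : (TP m A * ET κ m ℂ)ᵀ = TP m Aᵀ * ET κ m ℂ := by
  rw [Matrix.transpose_mul, ET_transpose, TP_transpose, ← TP_ET]

theorem q_tr : (qe m o0 o1)ᵀ = qe m o0 o1 := by unfold qe; rw [TE_transpose, QW_transpose]
theorem r_tr : (re m o0 o1)ᵀ = te m o0 o1 := by unfold re; rw [TE_transpose, RW_transpose]; rfl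
theorem t_tr : (te m o0 o1)ᵀ = re m o0 o1 := by unfold te; rw [TE_transpose, RT_transpose]; rfl

theorem u_tr : (uu m o0 o1)ᵀ = uu m o0 o1 := by unfold uu; rw [Matrix.transpose_sub, ET_transpose, q_tr]
theorem x_tr : (xx m o0 o1)ᵀ = xx m o0 o1 := by unfold xx; rw [Matrix.transpose_add, ET_transpose, q_tr]
theorem w_tr : (ww m o0 o1)ᵀ = -ww m o0 o1 := by unfold ww; rw [Matrix.transpose_sub, r_tr, t_tr]; abel

theorem P0_tr (p : ℤ) : (P0 m o0 o1 p)ᵀ = P0 m o0 o1 (2 - p) := by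
  by_cases p0 : p = 0
  · subst p0
    rw [show (2 : ℤ) - 0 = 2 by norm_num, P0_zero, P0_two, Matrix.transpose_smul, Matrix.transpose_add,
      Matrix.transpose_smul, u_tr, w_tr, smul_neg, sub_eq_add_neg]
  · by_cases p1 : p = 1
    · subst p1
      rw [show (2 : ℤ) - 1 = 1 by norm_num, P0_one, Matrix.transpose_smul, x_tr]
    · by_cases p2 : p = 2
      · subst p2
        rw [show (2 : ℤ) - 2 = 0 by norm_num, P0_zero, P0_two, Matrix.transpose_smul, Matrix.transpose_sub,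
          Matrix.transpose_smul, u_tr, w_tr, smul_neg, sub_neg_eq_add]
      · rw [P0_other p0 p1 p2, P0_other (by omega) (by omega) (by omega), Matrix.transpose_zero]

theorem P0_conj (p : ℤ) : (P0 m o0 o1 p).map (starRingEnd ℂ) = P0 m o0 o1 (2 - p) := by
  have c4 : (starRingEnd ℂ) (1 / 4 : ℂ) = 1 / 4 := by rw [map_div₀, map_one, map_ofNat]
  have c2 : (starRingEnd ℂ) (1 / 2 : ℂ) = 1 / 2 := by rw [map_div₀, map_one, map_ofNat]
  by_cases p0 : p = 0
  · subst p0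
    rw [show (2 : ℤ) - 0 = 2 by norm_num, P0_zero, P0_two, map_smul', map_add', map_smul', u_conj, w_conj,
      Complex.conj_I, neg_smul, sub_eq_add_neg, c4]
  · by_cases p1 : p = 1
    · subst p1
      rw [show (2 : ℤ) - 1 = 1 by norm_num, P0_one, map_smul', x_conj, c2]
    · by_cases p2 : p = 2
      · subst p2
        rw [show (2 : ℤ) - 2 = 0 by norm_num, P0_zero, P0_two, map_smul', map_sub', map_smul', u_conj, w_conj,
          Complex.conj_I, neg_smul, sub_neg_eq_add, c4]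
      · rw [P0_other p0 p1 p2, P0_other (by omega) (by omega) (by omega)]
        ext i j
        simp

theorem P0_e (p : ℤ) : P0 m o0 o1 p * ET κ m ℂ = P0 m o0 o1 p := by
  have hu : uu m o0 o1 * ET κ m ℂ = uu m o0 o1 := by unfold uu; rw [sub_mul, ET_sq, q_e]
  have hx : xx m o0 o1 * ET κ m ℂ = xx m o0 o1 := by unfold xx; rw [add_mul, ET_sq, q_e]
  have hw : ww m o0 o1 * ET κ m ℂ = ww m o0 o1 := by unfold ww; rw [sub_mul, r_e, t_e]
  unfold P0
  split_ifs
  · rw [smul_mul_assoc, sub_mul, smul_mul_assoc, hu, hw]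
  · rw [smul_mul_assoc, add_mul, smul_mul_assoc, hu, hw]
  · rw [smul_mul_assoc, hx]
  · rw [zero_mul]

theorem e_P0 (p : ℤ) : ET κ m ℂ * P0 m o0 o1 p = P0 m o0 o1 p := by
  have h := congrArg Matrix.transpose (P0_e (m := m) (o0 := o0) (o1 := o1) (2 - p))
  rw [Matrix.transpose_mul, ET_transpose, P0_tr, sub_sub_cancel] at h
  exact h

/-- the form acts by the sign of the level -/
theorem q_P0 {p : ℤ} (hp : p = 0 ∨ p = 1 ∨ p = 2) :
    TP m (QW ℂ o0 o1) * P0 m o0 o1 p = (if p = 1 then (1 : ℂ) else -1) • P0 m o0 o1 p := by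
  have h0 : TP m (QW ℂ o0 o1) * P0 m o0 o1 p = qe m o0 o1 * P0 m o0 o1 p := by
    unfold qe
    rw [mul_assoc, e_P0]
  have hu : qe m o0 o1 * uu m o0 o1 = -uu m o0 o1 := by unfold uu; rw [mul_sub, q_e, q_q]; abel
  have hx : qe m o0 o1 * xx m o0 o1 = xx m o0 o1 := by unfold xx; rw [mul_add, q_e, q_q]; abel
  have hw : qe m o0 o1 * ww m o0 o1 = -ww m o0 o1 := by unfold ww; rw [mul_sub, q_r, q_t]; abel
  rw [h0]
  rcases hp with rfl | rfl | rfl
  · rw [if_neg (by norm_num), P0_zero, mul_smul_comm, mul_add, mul_smul_comm, hu, hw]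
    module
  · rw [if_pos rfl, P0_one, mul_smul_comm, hx, one_smul]
  · rw [if_neg (by norm_num), P0_two, mul_smul_comm, mul_sub, mul_smul_comm, hu, hw]
    module

theorem P0_sum : ∑ p ∈ ({0, 1, 2} : Finset ℤ), P0 m o0 o1 p = ET κ m ℂ := by
  rw [Finset.sum_insert (by decide), Finset.sum_insert (by decide), Finset.sum_singleton, P0_zero, P0_one, P0_two]
  unfold uu xx
  module

theorem base_big : BigHW27 (TP m (QW ℚ o0 o1)) (ET κ m ℚ) (P0 m o0 o1) where
  mul := P0_mul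
  supp := fun p hp => by
    simp only [Finset.mem_insert, Finset.mem_singleton, not_or] at hp
    exact P0_other hp.1 hp.2.1 hp.2.2
  sum := by rw [P0_sum, toC_ET]
  conj := P0_conj
  symm := by rw [TP_transpose, QW_transpose]
  orth := fun p q hpq => by
    rw [toC_TP, toC_QW, P0_tr, mul_assoc]
    by_cases hq : q = 0 ∨ q = 1 ∨ q = 2
    · have h9 : P0 m o0 o1 (2 - p) * P0 m o0 o1 q = 0 := by rw [P0_mul, if_neg (by omega)]
      rw [q_P0 hq, mul_smul_comm, h9, smul_zero]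
    · push Not at hq
      rw [P0_other hq.1 hq.2.1 hq.2.2, mul_zero, mul_zero]
  pos := fun p v hv hv0 => by
    by_cases hp : p = 0 ∨ p = 1 ∨ p = 2
    · have h1 : TP m (QW ℂ o0 o1) *ᵥ v = (if p = 1 then (1 : ℂ) else -1) • v := by
        conv_lhs => rw [← hv]
        rw [Matrix.mulVec_mulVec, q_P0 hp, Matrix.smul_mulVec, hv]
      have hreal : (TP m (QW ℂ o0 o1)).map (starRingEnd ℂ) = TP m (QW ℂ o0 o1) := by
        rw [TP_map, QW_map]
      have h2 : toC (TP m (QW ℚ o0 o1)) *ᵥ star v = (if p = 1 then (1 : ℂ) else -1) • star v := by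
        rw [toC_TP, toC_QW, ← star_mulVec_real hreal, h1, star_smul]
        congr 1
        split_ifs <;> simp
      rw [h2, dotProduct_smul, smul_eq_mul, ← mul_assoc]
      have h3 : Complex.I ^ (2 * p - 2) * (if p = 1 then (1 : ℂ) else -1) = 1 := by
        rcases hp with rfl | rfl | rfl
        · norm_num
        · norm_num
        · norm_num
      rw [h3, one_mul]
      have h4 : v ⬝ᵥ star v = ((∑ f, Complex.normSq (v f) : ℝ) : ℂ) := by
        rw [dotProduct, Complex.ofReal_sum]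
        refine Finset.sum_congr rfl fun f _ => ?_
        rw [Pi.star_apply, Complex.star_def, Complex.mul_conj]
      rw [h4, Complex.ofReal_re]
      obtain ⟨f, hf⟩ := Function.ne_iff.1 hv0
      exact Finset.sum_pos' (fun f _ => Complex.normSq_nonneg _) ⟨f, Finset.mem_univ _, Complex.normSq_pos.2 hf⟩
    · push Not at hp
      rw [P0_other hp.1 hp.2.1 hp.2.2, Matrix.zero_mulVec] at hv
      exact absurd hv.symm hv0

/-- the difference of the extreme projections -/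
theorem P0_sub (h01 : o0 ≠ o1) : P0 m o0 o1 2 - P0 m o0 o1 0 = (-Complex.I) • (rh m (JW ℂ o0 o1) * ET κ m ℂ) := by
  have h1 := key2E (K := ℂ) (κ := κ) (m := m) h01
  have h2 : ww m o0 o1 = (2 : ℂ) • (rh m (JW ℂ o0 o1) * ET κ m ℂ) := h1
  rw [P0_two, P0_zero, h2]
  module

/-- the rotation in terms of the projections -/
theorem re_eq (h01 : o0 ≠ o1) : re m o0 o1 = P0 m o0 o1 1 + Complex.I • (P0 m o0 o1 2 - P0 m o0 o1 0) := by
  have h1 : re m o0 o1 + te m o0 o1 = ET κ m ℂ + qe m o0 o1 := key1E h01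
  have h2 : re m o0 o1 = (1 / 2 : ℂ) • (re m o0 o1 + te m o0 o1) + (1 / 2 : ℂ) • (re m o0 o1 - te m o0 o1) := by
    module
  rw [h2, h1, P0_one, P0_two, P0_zero]
  unfold xx ww
  obtain ⟨a, ha⟩ : ∃ a, a = re m o0 o1 - te m o0 o1 := ⟨_, rfl⟩
  rw [← ha]
  have h3 : Complex.I • ((1 / 4 : ℂ) • (uu m o0 o1 - Complex.I • a) - (1 / 4 : ℂ) • (uu m o0 o1 + Complex.I • a)) =
      (-(1 / 2) * (Complex.I * Complex.I)) • a := by
    module
  rw [h3, II]
  module

end MH.Her27.S4
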