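import Mathlib

/-!
Project LT (MP_b8862a_ag), sharpness: tensor powers of matrices and the antisymmetrizer.
-/

set_option linter.unusedSectionVars false

open Matrix

namespace MH.Her27.S4

variable {κ : Type*} [Fintype κ] [DecidableEq κ] {m : ℕ} {K : Type*} [CommRing K]

/-- the tensor product of `m` matrices -/
def TV (A : Fin m → Matrix κ κ K) : Matrix (Fin m → κ) (Fin m → κ) K := Matrix.of fun f g => ∏ k, A k (f k) (g k)

theorem TV_apply (A : Fin m → Matrix κ κ K) (f g : Fin m → κ) : TV A f g = ∏ k, A k (f k) (g k) := rfl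

theorem TV_mul (A B : Fin m → Matrix κ κ K) : TV A * TV B = TV fun k => A k * B k := by
  ext f g
  rw [Matrix.mul_apply]
  simp only [TV_apply, Matrix.mul_apply, ← Finset.prod_mul_distrib]
  rw [Finset.prod_univ_sum, Fintype.piFinset_univ]

theorem TV_one : TV (fun _ => 1 : Fin m → Matrix κ κ K) = 1 := by
  ext f g
  rw [TV_apply, Matrix.one_apply]
  simp only [Matrix.one_apply]
  rw [Finset.prod_ite_zero]
  simp only [Finset.mem_univ, forall_const, Finset.prod_const_one, funext_iff]

theorem TV_transpose (A : Fin m → Matrix κ κ K) : (TV A)ᵀ = TV fun k => (A k)ᵀ := rfl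

theorem TV_map {L : Type*} [CommRing L] (φ : K →+* L) (A : Fin m → Matrix κ κ K) :
    (TV A).map φ = TV fun k => (A k).map φ := by
  ext f g
  simp only [Matrix.map_apply, TV_apply, map_prod]

theorem TV_update (A : Fin m → Matrix κ κ K) (j : Fin m) (B : Matrix κ κ K) (f g : Fin m → κ) :
    TV (Function.update A j B) f g = B (f j) (g j) * ∏ k ∈ Finset.univ.erase j, A k (f k) (g k) := by
  rw [TV_apply, ← Finset.mul_prod_erase _ _ (Finset.mem_univ j), Function.update_self]
  congr 1
  refine Finset.prod_congr rfl fun k hk => ?_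
  rw [Function.update_of_ne (Finset.ne_of_mem_erase hk)]

/-- the tensor power -/
def TP (m : ℕ) (A : Matrix κ κ K) : Matrix (Fin m → κ) (Fin m → κ) K := TV fun _ => A

theorem TP_apply (A : Matrix κ κ K) (f g : Fin m → κ) : TP m A f g = ∏ k, A (f k) (g k) := rfl

theorem TP_mul (A B : Matrix κ κ K) : TP m A * TP m B = TP m (A * B) := TV_mul _ _

theorem TP_one : TP m (1 : Matrix κ κ K) = 1 := TV_one

theorem TP_transpose (A : Matrix κ κ K) : (TP m A)ᵀ = TP m Aᵀ := rfl

theorem TP_map {L : Type*} [CommRing L] (φ : K →+* L) (A : Matrix κ κ K) :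
    (TP m A).map φ = TP m (A.map φ) := TV_map φ _

theorem TP_smul (c : K) (A : Matrix κ κ K) : TP m (c • A) = (c ^ m) • TP m A := by
  ext f g
  simp only [TP_apply, Matrix.smul_apply, smul_eq_mul, Finset.prod_mul_distrib, Finset.prod_const, Finset.card_univ,
    Fintype.card_fin]

/-! ### the antisymmetrizer -/

/-- the antisymmetrizer, not normalised -/
def SS (κ : Type*) [DecidableEq κ] (m : ℕ) (K : Type*) [CommRing K] : Matrix (Fin m → κ) (Fin m → κ) K :=
  Matrix.of fun f g => ∑ σ : Equiv.Perm (Fin m), if f ∘ σ = g then ((Equiv.Perm.sign σ : ℤ) : K) else 0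

theorem SS_apply (f g : Fin m → κ) :
    SS κ m K f g = ∑ σ : Equiv.Perm (Fin m), if f ∘ σ = g then ((Equiv.Perm.sign σ : ℤ) : K) else 0 := rfl

theorem SS_mul (X : Matrix (Fin m → κ) (Fin m → κ) K) (f g : Fin m → κ) :
    (SS κ m K * X) f g = ∑ σ : Equiv.Perm (Fin m), ((Equiv.Perm.sign σ : ℤ) : K) * X (f ∘ σ) g := by
  rw [Matrix.mul_apply]
  simp only [SS_apply, Finset.sum_mul]
  rw [Finset.sum_comm]
  refine Finset.sum_congr rfl fun σ _ => ?_
  simp only [ite_mul, zero_mul]
  rw [Finset.sum_ite_eq, if_pos (Finset.mem_univ _)]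

theorem mul_SS (X : Matrix (Fin m → κ) (Fin m → κ) K) (f g : Fin m → κ) :
    (X * SS κ m K) f g = ∑ σ : Equiv.Perm (Fin m), ((Equiv.Perm.sign σ : ℤ) : K) * X f (g ∘ σ) := by
  rw [Matrix.mul_apply]
  simp only [SS_apply, Finset.mul_sum]
  rw [Finset.sum_comm]
  rw [← Equiv.sum_comp (Equiv.inv (Equiv.Perm (Fin m)))]
  refine Finset.sum_congr rfl fun σ _ => ?_
  have h1 : ∀ h : Fin m → κ, (h ∘ ((Equiv.inv (Equiv.Perm (Fin m))) σ) = g) ↔ (h = g ∘ σ) := by
    intro h
    rw [Equiv.inv_apply]
    constructor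
    · rintro rfl
      funext x
      simp
    · rintro rfl
      funext x
      simp
  simp only [h1]
  have h2 : ((Equiv.Perm.sign ((Equiv.inv (Equiv.Perm (Fin m))) σ) : ℤ) : K) = ((Equiv.Perm.sign σ : ℤ) : K) := by
    rw [Equiv.inv_apply, Equiv.Perm.sign_inv]
  rw [h2]
  simp only [mul_ite, mul_zero]
  rw [Finset.sum_ite_eq', if_pos (Finset.mem_univ _), mul_comm]

theorem sign_sq (σ : Equiv.Perm (Fin m)) : ((Equiv.Perm.sign σ : ℤ) : K) * ((Equiv.Perm.sign σ : ℤ) : K) = 1 := by
  rw [← Int.cast_mul, Int.units_coe_mul_self, Int.cast_one]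

theorem SS_row (f g : Fin m → κ) (ρ : Equiv.Perm (Fin m)) :
    SS κ m K (f ∘ ρ) g = ((Equiv.Perm.sign ρ : ℤ) : K) * SS κ m K f g := by
  rw [SS_apply, SS_apply, Finset.mul_sum]
  conv_rhs => rw [← Equiv.sum_comp (Equiv.mulLeft ρ)]
  refine Finset.sum_congr rfl fun σ _ => ?_
  rw [Equiv.coe_mulLeft, Equiv.Perm.sign_mul, Equiv.Perm.coe_mul, Units.val_mul, Int.cast_mul, ← Function.comp_assoc]
  split_ifs
  · rw [← mul_assoc, sign_sq, one_mul]
  · rw [mul_zero]

theorem SS_transpose : (SS κ m K)ᵀ = SS κ m K := by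
  ext f g
  rw [Matrix.transpose_apply, SS_apply, SS_apply, ← Equiv.sum_comp (Equiv.inv (Equiv.Perm (Fin m)))]
  refine Finset.sum_congr rfl fun σ _ => ?_
  have h1 : (g ∘ ((Equiv.inv (Equiv.Perm (Fin m))) σ) = f) ↔ (f ∘ σ = g) := by
    rw [Equiv.inv_apply]
    constructor
    · rintro rfl
      funext x
      simp
    · rintro rfl
      funext x
      simp
  rw [Equiv.inv_apply] at h1 ⊢
  simp only [h1, Equiv.Perm.sign_inv]

theorem SS_map {L : Type*} [CommRing L] (φ : K →+* L) : (SS κ m K).map φ = SS κ m L := by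
  ext f g
  rw [Matrix.map_apply, SS_apply, SS_apply, map_sum]
  refine Finset.sum_congr rfl fun σ _ => ?_
  rw [apply_ite φ, map_intCast, map_zero]

theorem SS_sq : SS κ m K * SS κ m K = (m.factorial : K) • SS κ m K := by
  ext f g
  rw [SS_mul, Matrix.smul_apply, smul_eq_mul]
  simp only [SS_row, ← mul_assoc, sign_sq, one_mul]
  rw [Finset.sum_const, Finset.card_univ, Fintype.card_perm, Fintype.card_fin, nsmul_eq_mul]

theorem TP_SS (A : Matrix κ κ K) : TP m A * SS κ m K = SS κ m K * TP m A := by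
  ext f g
  rw [SS_mul, mul_SS, ← Equiv.sum_comp (Equiv.inv (Equiv.Perm (Fin m)))]
  refine Finset.sum_congr rfl fun σ _ => ?_
  rw [Equiv.inv_apply, Equiv.Perm.sign_inv, TP_apply, TP_apply]
  congr 1
  rw [← Equiv.prod_comp σ]
  refine Finset.prod_congr rfl fun k _ => ?_
  simp

/-- rows at maps that are not injective vanish -/
theorem SS_zero {K : Type*} [Field K] [CharZero K] {f : Fin m → κ} (hf : ¬ Function.Injective f) (g : Fin m → κ) :
    SS κ m K f g = 0 := by
  simp only [Function.Injective, not_forall] at hf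
  obtain ⟨j, k, h1, h2⟩ := hf
  have h3 : f ∘ (Equiv.swap j k) = f := by
    funext x
    rw [Function.comp_apply]
    by_cases hx : x = j
    · subst hx; rw [Equiv.swap_apply_left, h1]
    · by_cases hx' : x = k
      · subst hx'; rw [Equiv.swap_apply_right, h1]
      · rw [Equiv.swap_apply_of_ne_of_ne hx hx']
  have h4 := SS_row (K := K) f g (Equiv.swap j k)
  rw [h3, Equiv.Perm.sign_swap h2] at h4
  push_cast at h4
  have h5 : (2 : K) * SS κ m K f g = 0 := by linear_combination h4
  exact (mul_eq_zero.1 h5).resolve_left two_ne_zero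

theorem SS_self {f : Fin m → κ} (hf : Function.Injective f) : SS κ m K f f = 1 := by
  rw [SS_apply, Finset.sum_eq_single 1]
  · simp
  · intro σ _ hσ
    rw [if_neg]
    intro h
    apply hσ
    ext x
    have := hf (congrFun h x)
    rw [this]
    rfl
  · intro h
    exact absurd (Finset.mem_univ _) h

/-! ### the derivation -/

/-- the matrix `B` at the place `j` -/
def rj (j : Fin m) (B : Matrix κ κ K) : Matrix (Fin m → κ) (Fin m → κ) K := TV (Function.update (fun _ => 1) j B)

theorem rj_apply (j : Fin m) (B : Matrix κ κ K) (f g : Fin m → κ) :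
    rj j B f g = if (∀ k, k ≠ j → f k = g k) then B (f j) (g j) else 0 := by
  unfold rj
  rw [TV_update]
  simp only [Matrix.one_apply]
  rw [Finset.prod_ite_zero]
  simp only [Finset.mem_erase, Finset.mem_univ, and_true, Finset.prod_const_one, mul_ite, mul_one, mul_zero]

theorem rj_add (j : Fin m) (B C : Matrix κ κ K) : rj j (B + C) = rj j B + rj j C := by
  ext f g
  rw [Matrix.add_apply, rj_apply, rj_apply, rj_apply]
  split_ifs <;> simp

theorem rj_smul (j : Fin m) (c : K) (B : Matrix κ κ K) : rj j (c • B) = c • rj j B := by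
  ext f g
  rw [Matrix.smul_apply, rj_apply, rj_apply]
  split_ifs <;> simp

theorem rj_mul_same (j : Fin m) (B C : Matrix κ κ K) : rj j B * rj j C = rj j (B * C) := by
  unfold rj
  rw [TV_mul]
  congr 1
  funext k
  by_cases h : k = j
  · subst h; simp
  · simp [Function.update_of_ne h]

theorem rj_comm {j k : Fin m} (h : j ≠ k) (B C : Matrix κ κ K) : rj j B * rj k C = rj k C * rj j B := by
  unfold rj
  rw [TV_mul, TV_mul]
  congr 1
  funext l
  by_cases h1 : l = j
  · subst h1; simp [Function.update_of_ne h]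
  · by_cases h2 : l = k
    · subst h2; simp [Function.update_of_ne h1]
    · simp [Function.update_of_ne h1, Function.update_of_ne h2]

theorem TP_rj (j : Fin m) (B g gi : Matrix κ κ K) (h : g * gi = 1) :
    TP m g * rj j B * TP m gi = rj j (g * B * gi) := by
  unfold rj TP
  rw [TV_mul, TV_mul]
  congr 1
  funext k
  by_cases h1 : k = j
  · subst h1; simp
  · simp [Function.update_of_ne h1, h]

/-- the derivation of the tensor power -/
def rh (m : ℕ) (B : Matrix κ κ K) : Matrix (Fin m → κ) (Fin m → κ) K := ∑ j : Fin m, rj j B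

theorem rh_add (B C : Matrix κ κ K) : rh m (B + C) = rh m B + rh m C := by
  unfold rh
  rw [← Finset.sum_add_distrib]
  exact Finset.sum_congr rfl fun j _ => rj_add j B C

theorem rh_smul (c : K) (B : Matrix κ κ K) : rh m (c • B) = c • rh m B := by
  unfold rh
  rw [Finset.smul_sum]
  exact Finset.sum_congr rfl fun j _ => rj_smul j c B

/-- the derivation as a linear map -/
def rhL (m : ℕ) : Matrix κ κ K →ₗ[K] Matrix (Fin m → κ) (Fin m → κ) K where
  toFun := rh m
  map_add' := rh_add
  map_smul' := fun c B => rh_smul c B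

theorem rhL_apply (B : Matrix κ κ K) : rhL m B = rh m B := rfl

theorem rh_br (B C : Matrix κ κ K) : rh m B * rh m C - rh m C * rh m B = rh m (B * C - C * B) := by
  have e0 : rh m (B * C - C * B) = ∑ j : Fin m, (rj j B * rj j C - rj j C * rj j B) := by
    rw [← rhL_apply, map_sub, rhL_apply, rhL_apply]
    unfold rh
    rw [← Finset.sum_sub_distrib]
    exact Finset.sum_congr rfl fun j _ => by rw [rj_mul_same, rj_mul_same]
  rw [e0]
  unfold rh
  rw [Finset.sum_mul_sum, Finset.sum_mul_sum]
  rw [show (∑ i : Fin m, ∑ j : Fin m, rj i C * rj j B) = ∑ i : Fin m, ∑ j : Fin m, rj j C * rj i B from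
    Finset.sum_comm]
  rw [← Finset.sum_sub_distrib]
  refine Finset.sum_congr rfl fun i _ => ?_
  rw [← Finset.sum_sub_distrib, Finset.sum_eq_single i]
  · intro j _ hj
    rw [rj_comm hj.symm B C, sub_self]
  · intro h
    exact absurd (Finset.mem_univ _) h

theorem TP_rh (B g gi : Matrix κ κ K) (h : g * gi = 1) : TP m g * rh m B * TP m gi = rh m (g * B * gi) := by
  unfold rh
  rw [Finset.mul_sum, Finset.sum_mul]
  exact Finset.sum_congr rfl fun j _ => TP_rj j B g gi h

theorem rh_map {L : Type*} [CommRing L] (φ : K →+* L) (B : Matrix κ κ K) : (rh m B).map φ = rh m (B.map φ) := by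
  ext f g
  simp only [rh, Matrix.map_apply, Matrix.sum_apply, map_sum, rj_apply]
  refine Finset.sum_congr rfl fun j _ => ?_
  rw [apply_ite φ, map_zero]

theorem rh_transpose (B : Matrix κ κ K) : (rh m B)ᵀ = rh m Bᵀ := by
  ext f g
  simp only [rh, Matrix.transpose_apply, Matrix.sum_apply, rj_apply]
  refine Finset.sum_congr rfl fun j _ => ?_
  have h1 : (∀ k, k ≠ j → g k = f k) ↔ (∀ k, k ≠ j → f k = g k) :=
    ⟨fun h k hk => (h k hk).symm, fun h k hk => (h k hk).symm⟩
  simp only [h1]

theorem rh_SS (B : Matrix κ κ K) : rh m B * SS κ m K = SS κ m K * rh m B := by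
  ext f g
  rw [SS_mul, mul_SS, ← Equiv.sum_comp (Equiv.inv (Equiv.Perm (Fin m)))]
  refine Finset.sum_congr rfl fun σ _ => ?_
  rw [Equiv.inv_apply, Equiv.Perm.sign_inv]
  congr 1
  simp only [rh, Matrix.sum_apply, rj_apply]
  rw [← Equiv.sum_comp σ]
  refine Finset.sum_congr rfl fun j _ => ?_
  have h1 : (∀ k, k ≠ σ j → f k = (g ∘ ⇑σ⁻¹) k) ↔ (∀ k, k ≠ j → (f ∘ ⇑σ) k = g k) := by
    constructor
    · intro h k hk
      have := h (σ k) (fun e => hk (σ.injective e))
      simpa using this
    · intro h k hk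
      have := h (σ⁻¹ k) (fun e => hk (by rw [← e]; simp))
      simpa using this
  simp only [h1]
  simp

/-! ### the contraction -/

/-- the adjoint of the derivation for the trace forms -/
def Fi (m : ℕ) (X : Matrix (Fin m → κ) (Fin m → κ) K) : Matrix κ κ K :=
  Matrix.of fun a b => (X * rh m (Matrix.single b a 1)).trace

theorem Fi_apply (X : Matrix (Fin m → κ) (Fin m → κ) K) (a b : κ) :
    Fi m X a b = (X * rh m (Matrix.single b a 1)).trace := rfl

theorem Fi_trace (X : Matrix (Fin m → κ) (Fin m → κ) K) (B : Matrix κ κ K) :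
    (Fi m X * B).trace = (X * rh m B).trace := by
  have h1 : B = ∑ b : κ, ∑ a : κ, (B b a) • Matrix.single b a (1 : K) := by
    conv_lhs => rw [Matrix.matrix_eq_sum_single B]
    refine Finset.sum_congr rfl fun b _ => Finset.sum_congr rfl fun a _ => ?_
    rw [Matrix.smul_single, smul_eq_mul, mul_one]
  have h2 : (X * rh m B).trace = ∑ b : κ, ∑ a : κ, B b a * Fi m X a b := by
    conv_lhs => rw [h1, ← rhL_apply]
    simp only [map_sum, map_smul, Finset.mul_sum, mul_smul_comm, Matrix.trace_sum, Matrix.trace_smul, smul_eq_mul,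
      rhL_apply, Fi_apply]
  rw [h2, Matrix.trace, Finset.sum_comm]
  refine Finset.sum_congr rfl fun a _ => ?_
  rw [Matrix.diag_apply, Matrix.mul_apply]
  exact Finset.sum_congr rfl fun b _ => mul_comm _ _

theorem ext_trace {A B : Matrix κ κ K} (h : ∀ C : Matrix κ κ K, (A * C).trace = (B * C).trace) : A = B := by
  ext a b
  have := h (Matrix.single b a 1)
  rw [Matrix.trace_mul_single, Matrix.trace_mul_single] at this
  simpa using this

theorem Fi_br (X : Matrix (Fin m → κ) (Fin m → κ) K) (h : Matrix κ κ K) :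
    Fi m (rh m h * X - X * rh m h) = h * Fi m X - Fi m X * h := by
  apply ext_trace
  intro C
  rw [Fi_trace, sub_mul, sub_mul, Matrix.trace_sub, Matrix.trace_sub]
  have e1 : (h * Fi m X * C).trace = (Fi m X * (C * h)).trace := by
    rw [mul_assoc, Matrix.trace_mul_comm, mul_assoc]
  have e2 : (rh m h * X * rh m C).trace = (X * (rh m C * rh m h)).trace := by
    rw [mul_assoc, Matrix.trace_mul_comm, mul_assoc]
  rw [e1, e2, mul_assoc (Fi m X) h C, Fi_trace, Fi_trace, mul_assoc, ← Matrix.trace_sub, ← Matrix.trace_sub, ← mul_sub,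
    ← mul_sub, rh_br, ← rhL_apply, ← rhL_apply, ← rhL_apply, ← map_sub]

theorem Fi_conj (X : Matrix (Fin m → κ) (Fin m → κ) K) {g gi : Matrix κ κ K} (h2 : gi * g = 1) :
    Fi m (TP m g * X * TP m gi) = g * Fi m X * gi := by
  apply ext_trace
  intro C
  rw [Fi_trace]
  have e1 : (g * Fi m X * gi * C).trace = (Fi m X * (gi * C * g)).trace := by
    calc (g * Fi m X * gi * C).trace = (g * (Fi m X * gi * C)).trace := by simp only [mul_assoc]
      _ = _ := by rw [Matrix.trace_mul_comm]; simp only [mul_assoc]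
  have e2 : (TP m g * X * TP m gi * rh m C).trace = (X * (TP m gi * rh m C * TP m g)).trace := by
    calc (TP m g * X * TP m gi * rh m C).trace = (TP m g * (X * TP m gi * rh m C)).trace := by simp only [mul_assoc]
      _ = _ := by rw [Matrix.trace_mul_comm]; simp only [mul_assoc]
  rw [e1, e2, Fi_trace, TP_rh _ _ _ h2]

theorem Fi_map {L : Type*} [CommRing L] (φ : K →+* L) (X : Matrix (Fin m → κ) (Fin m → κ) K) :
    (Fi m X).map φ = Fi m (X.map φ) := by
  ext a b
  rw [Matrix.map_apply, Fi_apply, Fi_apply]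
  have h1 : (Matrix.single b a (1 : L)) = (Matrix.single b a (1 : K)).map φ := by
    ext x y
    simp only [Matrix.map_apply, Matrix.single_apply, apply_ite φ, map_one, map_zero]
  rw [h1, ← rh_map, ← Matrix.map_mul]
  simp only [Matrix.trace, Matrix.diag_apply, Matrix.map_apply, map_sum]

end MH.Her27.S4
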