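import Pool.Agent.Helper27.S4.Ext

/-!
Project LT (MP_b8862a_ag), sharpness: exterior powers of structures of K3 type. The traces and the contraction.
-/

set_option linter.unusedSectionVars false
set_option linter.unusedSimpArgs false

open Matrix

namespace MH.Her27.S4

variable {κ : Type*} [Fintype κ] [DecidableEq κ] {m : ℕ} {o0 o1 : κ}

/-- the number of injective maps into a set -/
theorem card_inj (S : Finset κ) : ∑ f : Fin m → κ, (if Function.Injective f ∧ ∀ k, f k ∈ S then (1 : ℂ) else 0) =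
    (S.card.descFactorial m : ℂ) := by
  classical
  rw [Finset.sum_boole]
  congr 1
  have h1 : (Finset.univ.filter fun f : Fin m → κ => Function.Injective f ∧ ∀ k, f k ∈ S).card =
      Fintype.card {f : Fin m → κ // Function.Injective f ∧ ∀ k, f k ∈ S} := by
    rw [Fintype.card_subtype]
  rw [h1]
  have e : {f : Fin m → κ // Function.Injective f ∧ ∀ k, f k ∈ S} ≃ (Fin m ↪ S) :=
    { toFun := fun f => ⟨fun k => ⟨f.1 k, f.2.2 k⟩, fun a b h => f.2.1 (congrArg Subtype.val h)⟩
      invFun := fun f => ⟨fun k => (f k : κ), fun a b h => f.injective (Subtype.ext h), fun k => (f k).2⟩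
      left_inv := fun f => rfl
      right_inv := fun f => rfl }
  rw [Fintype.card_congr e, Fintype.card_embedding_eq, Fintype.card_fin, Fintype.card_coe]

theorem ET_diag (f : Fin m → κ) : ET κ m ℂ f f = (m.factorial : ℂ)⁻¹ * (if Function.Injective f then 1 else 0) := by
  unfold ET
  rw [Matrix.smul_apply, smul_eq_mul]
  by_cases hf : Function.Injective f
  · rw [SS_self hf, if_pos hf]
  · rw [SS_zero hf, if_neg hf]

theorem qe_diag (f : Fin m → κ) : qe m o0 o1 f f = (m.factorial : ℂ)⁻¹ *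
    (if Function.Injective f then (sn o0 f * sn o1 f) else 0) := by
  unfold qe ET
  rw [mul_smul_comm, Matrix.smul_apply, smul_eq_mul, QW_SS]
  by_cases hf : Function.Injective f
  · rw [SS_self hf, if_pos hf, mul_one]
    rfl
  · rw [SS_zero hf, if_neg hf, mul_zero]

theorem trace_ET : (ET κ m ℂ).trace = ((Fintype.card κ).choose m : ℂ) := by
  have h1 := card_inj (m := m) (Finset.univ : Finset κ)
  simp only [Finset.mem_univ, implies_true, and_true, Finset.card_univ] at h1
  rw [Matrix.trace]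
  simp only [Matrix.diag_apply, ET_diag]
  rw [← Finset.mul_sum, h1, Nat.descFactorial_eq_factorial_mul_choose]
  push_cast
  rw [← mul_assoc, inv_mul_cancel₀ fac_ne, one_mul]

theorem trace_uu (h01 : o0 ≠ o1) {M : ℕ} (hM : Fintype.card κ = M + 2) : (uu m o0 o1).trace =
    4 * (((M + 1).choose m : ℂ) - (M.choose m : ℂ)) := by
  have c1 : (Finset.univ.erase o0).card = M + 1 := by
    rw [Finset.card_erase_of_mem (Finset.mem_univ _), Finset.card_univ, hM]
    rfl
  have c2 : (Finset.univ.erase o1).card = M + 1 := by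
    rw [Finset.card_erase_of_mem (Finset.mem_univ _), Finset.card_univ, hM]
    rfl
  have c3 : ((Finset.univ.erase o0).erase o1).card = M := by
    rw [Finset.card_erase_of_mem (Finset.mem_erase.2 ⟨Ne.symm h01, Finset.mem_univ _⟩), c1]
    rfl
  have h1 := card_inj (m := m) (Finset.univ.erase o0)
  have h2 := card_inj (m := m) (Finset.univ.erase o1)
  have h3 := card_inj (m := m) ((Finset.univ.erase o0).erase o1)
  rw [c1] at h1
  rw [c2] at h2
  rw [c3] at h3
  have key : ∀ f : Fin m → κ, uu m o0 o1 f f = (m.factorial : ℂ)⁻¹ *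
      (2 * ((if Function.Injective f ∧ ∀ k, f k ∈ Finset.univ.erase o0 then (1 : ℂ) else 0) +
        (if Function.Injective f ∧ ∀ k, f k ∈ Finset.univ.erase o1 then (1 : ℂ) else 0) -
        2 * (if Function.Injective f ∧ ∀ k, f k ∈ (Finset.univ.erase o0).erase o1 then (1 : ℂ) else 0))) := by
    intro f
    unfold uu
    rw [Matrix.sub_apply, ET_diag, qe_diag, ← mul_sub]
    congr 1
    by_cases hf : Function.Injective f
    · simp only [hf, if_true, true_and, Finset.mem_erase, Finset.mem_univ, and_true, sn_eq hf]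
      by_cases p : ∃ k, f k = o0 <;> by_cases q : ∃ k, f k = o1
      · have p' : ¬ ∀ k, f k ≠ o0 := by push Not; exact p
        have q' : ¬ ∀ k, f k ≠ o1 := by push Not; exact q
        have r' : ¬ ∀ k, f k ≠ o1 ∧ f k ≠ o0 := fun h => p' fun k => (h k).2
        rw [if_pos p, if_pos q, if_neg p', if_neg q', if_neg r']
        ring
      · have p' : ¬ ∀ k, f k ≠ o0 := by push Not; exact p
        have q' : ∀ k, f k ≠ o1 := by push Not at q; exact q
        have r' : ¬ ∀ k, f k ≠ o1 ∧ f k ≠ o0 := fun h => p' fun k => (h k).2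
        rw [if_pos p, if_neg q, if_neg p', if_pos q', if_neg r']
        ring
      · have p' : ∀ k, f k ≠ o0 := by push Not at p; exact p
        have q' : ¬ ∀ k, f k ≠ o1 := by push Not; exact q
        have r' : ¬ ∀ k, f k ≠ o1 ∧ f k ≠ o0 := fun h => q' fun k => (h k).1
        rw [if_neg p, if_pos q, if_pos p', if_neg q', if_neg r']
        ring
      · have p' : ∀ k, f k ≠ o0 := by push Not at p; exact p
        have q' : ∀ k, f k ≠ o1 := by push Not at q; exact q
        have r' : ∀ k, f k ≠ o1 ∧ f k ≠ o0 := fun k => ⟨q' k, p' k⟩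
        rw [if_neg p, if_neg q, if_pos p', if_pos q', if_pos r']
        ring
    · simp [hf]
  rw [Matrix.trace]
  simp only [Matrix.diag_apply, key]
  rw [← Finset.mul_sum, ← Finset.mul_sum, Finset.sum_sub_distrib, Finset.sum_add_distrib, ← Finset.mul_sum, h1, h2, h3,
    Nat.descFactorial_eq_factorial_mul_choose, Nat.descFactorial_eq_factorial_mul_choose]
  push_cast
  have := fac_ne (K := ℂ) (m := m)
  field_simp
  ring

theorem trace_ww : (ww m o0 o1).trace = 0 := by
  unfold ww
  rw [Matrix.trace_sub, ← r_tr, Matrix.trace_transpose, sub_self]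

theorem trace_two (h01 : o0 ≠ o1) {M : ℕ} (hM : Fintype.card κ = M + 2) : (P0 (m + 1) o0 o1 2).trace =
    (M.choose m : ℂ) := by
  rw [P0_two, Matrix.trace_smul, Matrix.trace_sub, Matrix.trace_smul, trace_ww, trace_uu h01 hM, smul_zero, sub_zero,
    smul_eq_mul, Nat.choose_succ_succ]
  push_cast
  ring

theorem trace_zero' (h01 : o0 ≠ o1) {M : ℕ} (hM : Fintype.card κ = M + 2) : (P0 (m + 1) o0 o1 0).trace =
    (M.choose m : ℂ) := by
  rw [P0_zero, Matrix.trace_smul, Matrix.trace_add, Matrix.trace_smul, trace_ww, trace_uu h01 hM, smul_zero, add_zero,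
    smul_eq_mul, Nat.choose_succ_succ]
  push_cast
  ring

theorem trace_one' (h01 : o0 ≠ o1) {M : ℕ} (hM : Fintype.card κ = M + 2) : (P0 (m + 2) o0 o1 1).trace =
    (M.choose (m + 2) : ℂ) + (M.choose m : ℂ) := by
  have h1 : xx (m + 2) o0 o1 = (2 : ℂ) • ET κ (m + 2) ℂ - uu (m + 2) o0 o1 := by
    unfold xx uu
    module
  rw [P0_one, Matrix.trace_smul, h1, Matrix.trace_sub, Matrix.trace_smul, trace_ET, trace_uu h01 hM, hM,
    Nat.choose_succ_succ (M + 1) (m + 1), Nat.choose_succ_succ M (m + 1), Nat.choose_succ_succ M m, smul_eq_mul,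
    smul_eq_mul]
  push_cast
  ring

/-! ### the contraction -/

theorem JW_transpose : (JW ℂ o0 o1)ᵀ = -JW ℂ o0 o1 := by
  unfold JW
  rw [Matrix.transpose_sub, Matrix.transpose_single, Matrix.transpose_single, neg_sub]

/-- the sign change of one coordinate -/
noncomputable def D1 (o : κ) : Matrix κ κ ℂ := Matrix.diagonal fun x => if x = o then -1 else 1

theorem D1_sq (o : κ) : D1 o * D1 o = 1 := by
  unfold D1
  rw [Matrix.diagonal_mul_diagonal]
  have : (fun x => (if x = o then (-1 : ℂ) else 1) * (if x = o then -1 else 1)) = fun _ => 1 := by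
    funext x
    split_ifs <;> ring
  rw [this, Matrix.diagonal_one]

theorem D1_conj (o : κ) (B : Matrix κ κ ℂ) (a b : κ) : (D1 o * B * D1 o) a b =
    (if a = o then -1 else 1) * B a b * (if b = o then -1 else 1) := by
  unfold D1
  rw [Matrix.mul_diagonal, Matrix.diagonal_mul]

/-- the contraction of the derivation in the extreme direction is proportional to it -/
theorem Fi_JW (h01 : o0 ≠ o1) : ∃ α : ℂ, Fi m (rh m (JW ℂ o0 o1) * ET κ m ℂ) = α • JW ℂ o0 o1 := by
  obtain ⟨Y, hY⟩ : ∃ Y, Y = Fi m (rh m (JW ℂ o0 o1) * ET κ m ℂ) := ⟨_, rfl⟩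
  -- equivariance
  have hconj : ∀ g gi : Matrix κ κ ℂ, g * gi = 1 → gi * g = 1 →
      g * Y * gi = Fi m (rh m (g * JW ℂ o0 o1 * gi) * ET κ m ℂ) := by
    intro g gi h1 h2
    rw [hY, ← Fi_conj _ h2]
    congr 1
    calc TP m g * (rh m (JW ℂ o0 o1) * ET κ m ℂ) * TP m gi =
          TP m g * rh m (JW ℂ o0 o1) * (ET κ m ℂ * TP m gi) := by simp only [mul_assoc]
      _ = TP m g * rh m (JW ℂ o0 o1) * TP m gi * ET κ m ℂ := by rw [← TP_ET]; simp only [mul_assoc]
      _ = _ := by rw [TP_rh _ _ _ h1]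
  have hD : ∀ o a b, (if a = o then (-1 : ℂ) else 1) * Y a b * (if b = o then -1 else 1) =
      Fi m (rh m (D1 o * JW ℂ o0 o1 * D1 o) * ET κ m ℂ) a b := by
    intro o a b
    rw [← hconj (D1 o) (D1 o) (D1_sq o) (D1_sq o), D1_conj]
  have hneg : Fi m (rh m (-JW ℂ o0 o1) * ET κ m ℂ) = -Y := by
    have h1 : Fi m (rh m ((-1 : ℂ) • JW ℂ o0 o1) * ET κ m ℂ) = (-1 : ℂ) • Y := by
      rw [rh_smul, smul_mul_assoc, hY]
      ext a b
      rw [Fi_apply, Matrix.smul_apply, Fi_apply, smul_mul_assoc, Matrix.trace_smul]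
    rw [neg_one_smul, neg_one_smul] at h1
    exact h1
  have hJ : ∀ o, o ≠ o0 → o ≠ o1 → D1 o * JW ℂ o0 o1 * D1 o = JW ℂ o0 o1 := by
    intro o h0 h1
    ext a b
    rw [D1_conj, JW_apply]
    by_cases ha : a = o
    · subst ha
      simp [h0, h1]
    · by_cases hb : b = o
      · subst hb
        simp [h0, h1]
      · simp [ha, hb]
  have hJ0 : D1 o0 * JW ℂ o0 o1 * D1 o0 = -JW ℂ o0 o1 := by
    ext a b
    rw [D1_conj, Matrix.neg_apply, JW_apply]
    by_cases ha : a = o0
    · subst ha
      by_cases hb : b = o1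
      · subst hb; simp [h01, Ne.symm h01]
      · simp [h01, hb]
    · by_cases hb : b = o0
      · subst hb; simp [ha, h01]
      · simp [ha, hb]
  have hJ1 : D1 o1 * JW ℂ o0 o1 * D1 o1 = -JW ℂ o0 o1 := by
    ext a b
    rw [D1_conj, Matrix.neg_apply, JW_apply]
    by_cases ha : a = o1
    · subst ha
      by_cases hb : b = o0
      · subst hb; simp [h01, Ne.symm h01]
      · simp [Ne.symm h01, hb]
    · by_cases hb : b = o1
      · subst hb; simp [ha, Ne.symm h01]
      · simp [ha, hb]
  have y0 : ∀ a b, (if a = o0 then (-1 : ℂ) else 1) * Y a b * (if b = o0 then -1 else 1) = -Y a b := by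
    intro a b
    rw [hD, hJ0, hneg, Matrix.neg_apply]
  have y1 : ∀ a b, (if a = o1 then (-1 : ℂ) else 1) * Y a b * (if b = o1 then -1 else 1) = -Y a b := by
    intro a b
    rw [hD, hJ1, hneg, Matrix.neg_apply]
  -- the transposed matrix
  have hT : Yᵀ = -Y := by
    rw [← hneg, hY]
    ext a b
    rw [Matrix.transpose_apply, Fi_apply, Fi_apply, ← Matrix.trace_transpose, Matrix.transpose_mul,
      Matrix.transpose_mul, ET_transpose, rh_transpose, rh_transpose, JW_transpose, Matrix.transpose_single,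
      Matrix.trace_mul_comm, ← rh_ET]
  refine ⟨Y o1 o0, ?_⟩
  rw [← hY]
  ext a b
  rw [Matrix.smul_apply, JW_apply, smul_eq_mul]
  by_cases a0 : a = o0
  · subst a0
    by_cases b1 : b = o1
    · subst b1
      have := congrFun (congrFun hT a) b
      rw [Matrix.transpose_apply, Matrix.neg_apply] at this
      rw [if_neg h01, if_pos rfl, if_pos rfl, this]
      ring
    · have := y1 a b
      rw [if_neg h01, if_neg b1] at this
      have h3 : Y a b = 0 := by linear_combination (1 / 2 : ℂ) * this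
      rw [h3, if_neg h01, if_pos rfl, if_neg b1]
      ring
  · by_cases a1 : a = o1
    · subst a1
      by_cases b0 : b = o0
      · subst b0
        rw [if_pos rfl, if_pos rfl, if_neg a0]
        ring
      · have := y0 a b
        rw [if_neg a0, if_neg b0] at this
        have h3 : Y a b = 0 := by linear_combination (1 / 2 : ℂ) * this
        rw [h3, if_pos rfl, if_neg b0, if_neg a0]
        ring
    · have h3 : Y a b = 0 := by
        by_cases b0 : b = o0
        · have := y1 a b
          rw [if_neg a1, if_neg (by rw [b0]; exact h01)] at this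
          linear_combination (1 / 2 : ℂ) * this
        · have := y0 a b
          rw [if_neg a0, if_neg b0] at this
          linear_combination (1 / 2 : ℂ) * this
      rw [h3, if_neg a0, if_neg a1]
      ring

/-- the factor -/
theorem Fi_JW_ne (h01 : o0 ≠ o1) {α : ℂ} (hα : Fi m (rh m (JW ℂ o0 o1) * ET κ m ℂ) = α • JW ℂ o0 o1)
    (hne : (P0 m o0 o1 2).trace + (P0 m o0 o1 0).trace ≠ 0) : α ≠ 0 := by
  rintro rfl
  apply hne
  have h1 := Fi_trace (rh m (JW ℂ o0 o1) * ET κ m ℂ) (JW ℂ o0 o1)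
  rw [hα, zero_smul, zero_mul, Matrix.trace_zero] at h1
  have h2 : (P0 m o0 o1 2 - P0 m o0 o1 0) * (P0 m o0 o1 2 - P0 m o0 o1 0) = P0 m o0 o1 2 + P0 m o0 o1 0 := by
    rw [sub_mul, mul_sub, mul_sub, P0_mul, P0_mul, P0_mul, P0_mul, if_pos rfl, if_neg (by norm_num),
      if_neg (by norm_num), if_pos rfl]
    abel
  rw [← Matrix.trace_add, ← h2, P0_sub h01, smul_mul_smul_comm, Matrix.trace_smul]
  have h3 : rh m (JW ℂ o0 o1) * ET κ m ℂ * (rh m (JW ℂ o0 o1) * ET κ m ℂ) =
      rh m (JW ℂ o0 o1) * ET κ m ℂ * rh m (JW ℂ o0 o1) := by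
    calc rh m (JW ℂ o0 o1) * ET κ m ℂ * (rh m (JW ℂ o0 o1) * ET κ m ℂ) =
          rh m (JW ℂ o0 o1) * (ET κ m ℂ * (rh m (JW ℂ o0 o1) * ET κ m ℂ)) := by simp only [mul_assoc]
      _ = rh m (JW ℂ o0 o1) * ((ET κ m ℂ * ET κ m ℂ) * rh m (JW ℂ o0 o1)) := by
          rw [rh_ET, ← mul_assoc (ET κ m ℂ) (ET κ m ℂ)]
      _ = _ := by rw [ET_sq]; simp only [mul_assoc]
  rw [h3, ← h1, smul_zero]

end MH.Her27.S4
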